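import Pool.Agent.W_9986fc_h42.Defs

/-!
# The Pfaffian and nondegeneracy

* `nondeg_iff`: an alternating bilinear form `b` on a 4-dimensional space, `w i j = b (e i) (e j)`:
  `det w = (pf w)²` (`Matrix.det_fin_four`?, or `Matrix.det_succ_row_zero`, `ring`), and `b` is
  nondegenerate iff `det w ≠ 0` (`Matrix.exists_mulVec_eq_zero_iff`, `Module.Basis.sum_repr`); or
  directly: if `pf ≠ 0` and `b u = 0`, then the adjoint array (`w' = [[0, w23, -w13, w12], ...]`)
  gives `pf • u = 0`.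
* `pf_trans`: `pf (gᵀ w g) = det g * pf w`: expand everything (16 products of entries; `det_fin_four`
  or `Matrix.det_succ_row_zero` with `simp [Fin.sum_univ_succ]`, then `ring` after substituting
  `w i i = 0`, `w j i = - w i j`).
-/

open Matrix

namespace CF42

/-- the determinant of a `4 × 4` matrix -/
theorem non_det4 (A : Matrix (Fin 4) (Fin 4) ℝ) :
    A.det =
      A 0 0 * (A 1 1 * (A 2 2 * A 3 3 - A 2 3 * A 3 2) - A 1 2 * (A 2 1 * A 3 3 - A 2 3 * A 3 1)
        + A 1 3 * (A 2 1 * A 3 2 - A 2 2 * A 3 1))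
      - A 0 1 * (A 1 0 * (A 2 2 * A 3 3 - A 2 3 * A 3 2) - A 1 2 * (A 2 0 * A 3 3 - A 2 3 * A 3 0)
        + A 1 3 * (A 2 0 * A 3 2 - A 2 2 * A 3 0))
      + A 0 2 * (A 1 0 * (A 2 1 * A 3 3 - A 2 3 * A 3 1) - A 1 1 * (A 2 0 * A 3 3 - A 2 3 * A 3 0)
        + A 1 3 * (A 2 0 * A 3 1 - A 2 1 * A 3 0))
      - A 0 3 * (A 1 0 * (A 2 1 * A 3 2 - A 2 2 * A 3 1) - A 1 1 * (A 2 0 * A 3 2 - A 2 2 * A 3 0)
        + A 1 2 * (A 2 0 * A 3 1 - A 2 1 * A 3 0)) := by
  have h : A = !![A 0 0, A 0 1, A 0 2, A 0 3; A 1 0, A 1 1, A 1 2, A 1 3;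
      A 2 0, A 2 1, A 2 2, A 2 3; A 3 0, A 3 1, A 3 2, A 3 3] := by
    ext i j
    fin_cases i <;> fin_cases j <;> rfl
  conv_lhs => rw [h]
  simp [Matrix.det_succ_row_zero, Fin.sum_univ_succ, Matrix.submatrix, Fin.succAbove]
  ring

/-- the determinant is the square of the Pfaffian -/
theorem non_det_eq (w : Fin 4 → Fin 4 → ℝ) (h0 : ∀ i, w i i = 0) (h1 : ∀ i j, w j i = - w i j) :
    (Matrix.of w).det = pf w ^ 2 := by
  rw [non_det4]
  simp only [Matrix.of_apply, pf]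
  rw [h0 0, h0 1, h0 2, h0 3, h1 0 1, h1 0 2, h1 0 3, h1 1 2, h1 1 3, h1 2 3]
  ring

/-- nondegeneracy of an alternating form on a 4-dimensional space in terms of the Pfaffian -/
theorem nondeg_iff {V : Type*} [AddCommGroup V] [Module ℝ V] (e : Module.Basis (Fin 4) ℝ V)
    (b : V →ₗ[ℝ] V →ₗ[ℝ] ℝ) (hb : ∀ v, b v v = 0) :
    (∀ u, (∀ v, b u v = 0) → u = 0) ↔ pf (fun i j => b (e i) (e j)) ≠ 0 := by
  have hanti : ∀ u v, b v u = - b u v := by
    intro u v
    have h := hb (u + v)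
    simp only [map_add, LinearMap.add_apply, hb] at h
    linarith
  have hdet := non_det_eq (fun i j => b (e i) (e j)) (fun i => hb (e i))
    (fun i j => hanti (e i) (e j))
  have hkey : pf (fun i j => b (e i) (e j)) = 0 ↔
      ∃ c : Fin 4 → ℝ, c ≠ 0 ∧ c ᵥ* (Matrix.of fun i j => b (e i) (e j)) = 0 := by
    rw [Matrix.exists_vecMul_eq_zero_iff, hdet]
    exact (pow_eq_zero_iff two_ne_zero).symm
  have hb2 : ∀ (c : Fin 4 → ℝ) (j : Fin 4),
      b (∑ i, c i • e i) (e j) = (c ᵥ* (Matrix.of fun i j => b (e i) (e j))) j := by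
    intro c j
    simp [Matrix.vecMul, dotProduct, LinearMap.sum_apply]
  constructor
  · intro h hpf
    obtain ⟨c, hc, hc0⟩ := hkey.mp hpf
    have h1 : ∀ v, b (∑ i, c i • e i) v = 0 := by
      intro v
      have h2 : b (∑ i, c i • e i) = 0 := by
        apply e.ext
        intro j
        rw [hb2, hc0]
        rfl
      rw [h2]
      rfl
    have h3 := h _ h1
    apply hc
    funext i
    have := Fintype.linearIndependent_iff.mp e.linearIndependent c h3 i
    exact this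
  · intro hpf u hu
    by_contra hne
    apply hpf
    rw [hkey]
    refine ⟨fun i => e.repr u i, ?_, ?_⟩
    · intro h0
      apply hne
      rw [← e.sum_repr u]
      apply Finset.sum_eq_zero
      intro i _
      rw [congrFun h0 i]
      simp
    · funext j
      rw [← hb2]
      have h5 : ∑ i, (e.repr u i) • e i = u := e.sum_repr u
      rw [h5, hu]
      rfl

/-- change of basis -/
theorem pf_trans (g : Matrix (Fin 4) (Fin 4) ℝ) (w : Fin 4 → Fin 4 → ℝ) (h0 : ∀ i, w i i = 0)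
    (h1 : ∀ i j, w j i = - w i j) :
    pf (fun i j => ∑ a, ∑ b, g a i * g b j * w a b) = g.det * pf w := by
  rw [non_det4]
  simp only [pf, Fin.sum_univ_four]
  rw [h0 0, h0 1, h0 2, h0 3, h1 0 1, h1 0 2, h1 0 3, h1 1 2, h1 1 3, h1 2 3]
  ring

end CF42
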