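import Mathlib

/-!
# MP_9986fc_gt, CouplingForms: definitions (linear algebra)

Alternating bilinear forms on `ℝ⁴` are written as arrays `w : Fin 4 → Fin 4 → ℝ`.  Hermitian
matrices `M i j` (`K × K`, alternating in `i, j`) give a linear map from hermitian matrices `Q` to
such arrays, `arr M Q`.  `Gr P k` are the orthogonal projections of rank `k` below the orthogonal
projection `P`.
-/

open Matrix

namespace CF42

/-- `K × K` complex matrices -/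
abbrev Mat (K : ℕ) : Type := Matrix (Fin K) (Fin K) ℂ

/-- the Pfaffian of an alternating `4 × 4` array -/
def pf (w : Fin 4 → Fin 4 → ℝ) : ℝ := w 0 1 * w 2 3 - w 0 2 * w 1 3 + w 0 3 * w 1 2

variable {K : ℕ}

/-- orthogonal projections of rank `k` below `P` -/
def Gr (P : Mat K) (k : ℕ) : Set (Mat K) :=
  {Q | Qᴴ = Q ∧ Q * Q = Q ∧ Q.trace = (k : ℂ) ∧ P * Q = Q}

/-- `Re tr(M Q)` -/
noncomputable def rt (M Q : Mat K) : ℝ := (M * Q).trace.re

/-- the array `Re tr(M i j Q)` -/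
noncomputable def arr (M : Fin 4 → Fin 4 → Mat K) (Q : Mat K) : Fin 4 → Fin 4 → ℝ :=
  fun i j => rt (M i j) Q

/-- orthogonal projection of rank `N` -/
structure IsProj (P : Mat K) (N : ℕ) : Prop where
  herm : Pᴴ = P
  idem : P * P = P
  trace : P.trace = (N : ℂ)

/-- hermitian matrices, alternating in the indices -/
structure HermAlt (M : Fin 4 → Fin 4 → Mat K) : Prop where
  herm : ∀ i j, (M i j)ᴴ = M i j
  alt : ∀ i j, M j i = - M i j

/-- exchange of the indices `2` and `3` -/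
def sw (M : Fin 4 → Fin 4 → Mat K) : Fin 4 → Fin 4 → Mat K :=
  fun i j => M (Equiv.swap 2 3 i) (Equiv.swap 2 3 j)

/-- `ℝ³` -/
abbrev E3 : Type := EuclideanSpace ℝ (Fin 3)

/-- first half of an array: `pf w = ‖av w‖² - ‖bv w‖²` -/
noncomputable def av (w : Fin 4 → Fin 4 → ℝ) : E3 :=
  WithLp.toLp 2 ![(w 0 1 + w 2 3) / 2, (w 0 2 - w 1 3) / 2, (w 0 3 + w 1 2) / 2]

/-- second half of an array -/
noncomputable def bv (w : Fin 4 → Fin 4 → ℝ) : E3 :=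
  WithLp.toLp 2 ![(w 0 1 - w 2 3) / 2, (w 0 2 + w 1 3) / 2, (w 0 3 - w 1 2) / 2]

/-- the hermitian `2 × 2` matrix `[[t+z, x-iy],[x+iy, t-z]]` -/
noncomputable def h2 (p : ℝ × E3) : Matrix (Fin 2) (Fin 2) ℂ :=
  !![((p.1 + p.2 2 : ℝ) : ℂ), (p.2 0 : ℂ) - Complex.I * (p.2 1 : ℂ);
     (p.2 0 : ℂ) + Complex.I * (p.2 1 : ℂ), ((p.1 - p.2 2 : ℝ) : ℂ)]

/-- `F h Fᴴ` -/
noncomputable def fh (F : Matrix (Fin K) (Fin 2) ℂ) (p : ℝ × E3) : Mat K := F * h2 p * Fᴴ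

/-- positive semidefinite hermitian matrix -/
def Psd {n : ℕ} (ρ : Matrix (Fin n) (Fin n) ℂ) : Prop :=
  ρᴴ = ρ ∧ ∀ x : Fin n → ℂ, 0 ≤ (star x ⬝ᵥ ρ *ᵥ x).re

/-- the set of points where a semidefinite element has a nonpositive value relative to the pure
ones -/
def Ins {Y : Type*} (P : Y → Mat K) (M : Y → Fin 4 → Fin 4 → Mat K) : Set Y :=
  {y | ∃ ρ : Mat K, Psd ρ ∧ ρ ≠ 0 ∧ P y * ρ = ρ ∧
    ∃ Q ∈ Gr (P y) 1, pf (arr (M y) ρ) * pf (arr (M y) Q) ≤ 0}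

end CF42
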