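import Pool.Agent.W_9986fc_h42.Defs

/-!
# Elementary properties of `pf`, `rt`, `arr`, `av`, `bv`

* `pf_eq`: `((a+b)/2)² - ((a-b)/2)² = a b` three times; `EuclideanSpace.norm_sq_eq`,
  `Fin.sum_univ_three`.
* `pf_sw`: `(2 3)` maps `w01 w23 - w02 w13 + w03 w12` to `w01 w32 - w03 w12 + w02 w13` and
  `w32 = - w23`.
-/

open Matrix

namespace CF42

variable {K : ℕ}

theorem pf_eq (w : Fin 4 → Fin 4 → ℝ) : pf w = ‖av w‖ ^ 2 - ‖bv w‖ ^ 2 := by
  rw [EuclideanSpace.norm_sq_eq, EuclideanSpace.norm_sq_eq, Fin.sum_univ_three,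
    Fin.sum_univ_three]
  simp only [av, bv, Real.norm_eq_abs, sq_abs, Matrix.cons_val_zero, Matrix.cons_val_one,
    Matrix.cons_val, pf]
  ring

theorem rt_add (M Q Q' : Mat K) : rt M (Q + Q') = rt M Q + rt M Q' := by
  simp [rt, Matrix.mul_add, Matrix.trace_add]

theorem rt_smul (M : Mat K) (c : ℝ) (Q : Mat K) : rt M ((c : ℂ) • Q) = c * rt M Q := by
  simp [rt, Matrix.trace_smul]

theorem rt_add_left (M M' Q : Mat K) : rt (M + M') Q = rt M Q + rt M' Q := by
  simp [rt, Matrix.add_mul, Matrix.trace_add]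

theorem rt_smul_left (M : Mat K) (c : ℝ) (Q : Mat K) : rt ((c : ℂ) • M) Q = c * rt M Q := by
  simp [rt, Matrix.trace_smul]

theorem rt_continuous {Y : Type*} [TopologicalSpace Y] {f g : Y → Mat K} (hf : Continuous f)
    (hg : Continuous g) : Continuous fun y => rt (f y) (g y) := by
  unfold rt
  exact Complex.continuous_re.comp ((hf.matrix_mul hg).matrix_trace)

theorem pf_smul (w : Fin 4 → Fin 4 → ℝ) (c : ℝ) : pf (fun i j => c * w i j) = c ^ 2 * pf w := by
  unfold pf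
  ring

theorem pf_arr_smul (M : Fin 4 → Fin 4 → Mat K) (c : ℝ) (Q : Mat K) :
    pf (arr M ((c : ℂ) • Q)) = c ^ 2 * pf (arr M Q) := by
  have h : arr M ((c : ℂ) • Q) = fun i j => c * arr M Q i j := by
    funext i j
    exact rt_smul _ _ _
  rw [h, pf_smul]

theorem HermAlt.sw {M : Fin 4 → Fin 4 → Mat K} (hM : HermAlt M) : HermAlt (sw M) := by
  exact ⟨fun i j => hM.herm _ _, fun i j => hM.alt _ _⟩

/-- exchange of the indices `2, 3` changes the sign of the Pfaffian -/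
theorem pf_sw {M : Fin 4 → Fin 4 → Mat K} (hM : HermAlt M) (Q : Mat K) :
    pf (arr (CF42.sw M) Q) = - pf (arr M Q) := by
  have h0 : Equiv.swap (2 : Fin 4) 3 0 = 0 := by decide
  have h1 : Equiv.swap (2 : Fin 4) 3 1 = 1 := by decide
  have h2 : Equiv.swap (2 : Fin 4) 3 2 = 3 := by decide
  have h3 : Equiv.swap (2 : Fin 4) 3 3 = 2 := by decide
  have h4 : rt (M 3 2) Q = - rt (M 2 3) Q := by
    rw [hM.alt 2 3]
    simp [rt]
  unfold pf arr CF42.sw
  simp only [h0, h1, h2, h3, h4]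
  ring

end CF42
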