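import Pool.Agent.W_9986fc_h42.CoB

/-!
# The set of inner points is clopen

Closed: the projection of the closed set `{(y, v) | ‖v‖ ≤ 1, ‖A y (1,v)‖ ≤ ‖B y (1,v)‖}` along the
compact ball (`IsCompact` of `Metric.closedBall`, `isClosedMap_snd_of_compactSpace` or
`IsClosed` of the image under `Prod.fst` with compact second factor).
Open: let `v0` be as in the definition for `y0`; `q_{y0}(1,v0) ≤ 0 < q_{y0}(1,v)` on the sphere.  The set
of `(y, v)` with `q_y(1,v0) < q_y(1,v)` is open and contains `{y0} × sphere`, so it contains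
`U × sphere` for a neighbourhood `U` of `y0` (tube lemma, `generalized_tube_lemma`); use `crit_le`
on `U`.
-/

open Matrix

namespace CF42

theorem clopen {Y : Type*} [TopologicalSpace Y] (A B : Y → (ℝ × E3) →ₗ[ℝ] E3)
    (hA : Continuous fun p : Y × (ℝ × E3) => A p.1 p.2)
    (hB : Continuous fun p : Y × (ℝ × E3) => B p.1 p.2)
    (h : ∀ y, ∀ v : E3, ‖v‖ = 1 → ‖B y (1, v)‖ < ‖A y (1, v)‖) :
    IsClopen {y | ∃ v : E3, ‖v‖ ≤ 1 ∧ ‖A y (1, v)‖ ≤ ‖B y (1, v)‖} := by
  have cA : Continuous fun p : Y × E3 => A p.1 (1, p.2) :=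
    hA.comp (by fun_prop : Continuous fun p : Y × E3 => (p.1, ((1 : ℝ), p.2)))
  have cB : Continuous fun p : Y × E3 => B p.1 (1, p.2) :=
    hB.comp (by fun_prop : Continuous fun p : Y × E3 => (p.1, ((1 : ℝ), p.2)))
  constructor
  · -- closed
    haveI : CompactSpace (Metric.closedBall (0 : E3) 1) :=
      isCompact_iff_compactSpace.1 (isCompact_closedBall _ _)
    have hC : IsClosed {p : Y × Metric.closedBall (0 : E3) 1 |
        ‖A p.1 (1, (p.2 : E3))‖ ≤ ‖B p.1 (1, (p.2 : E3))‖} := by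
      have e : Continuous fun p : Y × Metric.closedBall (0 : E3) 1 => (p.1, (p.2 : E3)) := by
        fun_prop
      exact isClosed_le (cA.comp e).norm (cB.comp e).norm
    have h1 := isClosedMap_fst_of_compactSpace (X := Y) (Y := Metric.closedBall (0 : E3) 1) _ hC
    convert h1 using 1
    ext y
    constructor
    · rintro ⟨v, hv, hle⟩
      exact ⟨(y, ⟨v, by simpa using hv⟩), hle, rfl⟩
    · rintro ⟨⟨y', v, hv⟩, hle, rfl⟩
      exact ⟨v, by simpa using hv, hle⟩
  · -- open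
    rw [isOpen_iff_mem_nhds]
    rintro y0 ⟨v0, hv0, h0⟩
    set O : Set (Y × E3) := {p | ‖A p.1 (1, v0)‖ ^ 2 - ‖B p.1 (1, v0)‖ ^ 2 <
      ‖A p.1 (1, p.2)‖ ^ 2 - ‖B p.1 (1, p.2)‖ ^ 2} with hO
    have e0 : Continuous fun p : Y × E3 => (p.1, v0) := by fun_prop
    have hOo : IsOpen O := isOpen_lt (((cA.comp e0).norm.pow 2).sub ((cB.comp e0).norm.pow 2))
      ((cA.norm.pow 2).sub (cB.norm.pow 2))
    have hsub : ({y0} : Set Y) ×ˢ Metric.sphere (0 : E3) 1 ⊆ O := by
      rintro ⟨y, v⟩ ⟨hy, hv⟩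
      have hy' : y = y0 := hy
      subst hy'
      have hv' : ‖v‖ = 1 := by simpa using hv
      have h1 := h y v hv'
      have h2 : ‖A y (1, v0)‖ ^ 2 ≤ ‖B y (1, v0)‖ ^ 2 := pow_le_pow_left₀ (norm_nonneg _) h0 2
      have h3 : ‖B y (1, v)‖ ^ 2 < ‖A y (1, v)‖ ^ 2 :=
        pow_lt_pow_left₀ h1 (norm_nonneg _) two_ne_zero
      have h4 : ‖A y (1, v0)‖ ^ 2 - ‖B y (1, v0)‖ ^ 2 < ‖A y (1, v)‖ ^ 2 - ‖B y (1, v)‖ ^ 2 := by
        linarith
      exact h4
    have hcs : IsCompact (Metric.sphere (0 : E3) 1) := isCompact_sphere (0 : E3) 1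
    have hcy : IsCompact ({y0} : Set Y) := isCompact_singleton
    clear_value O
    obtain ⟨u, t, hu, -, hyu, hst, hut⟩ := generalized_tube_lemma hcy hcs hOo hsub
    refine Filter.mem_of_superset (hu.mem_nhds (hyu rfl)) fun y hy => ?_
    refine crit_le (A y) (B y) hv0 fun v hv => ?_
    have h1 : (y, v) ∈ O := hut (Set.mk_mem_prod hy (hst (by simpa using hv)))
    rw [hO] at h1
    exact h1

end CF42
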