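import Pool.Agent.W_9986fc_h42.Defs

/-!
# Orthonormal frames of projections

`exists_frame`: let `L` be the linear map of `Q` on `EuclideanSpace ℂ (Fin K)` (`Matrix.toEuclideanLin`),
`W` its range; `finrank W = k` because the trace of a projection is its rank
(`LinearMap.IsProj.trace`, `LinearMap.trace` of an idempotent).  Take an orthonormal basis of `W`
(`stdOrthonormalBasis` and `finCongr`), `F` the matrix with these columns: `Fᴴ F = 1`, and `F Fᴴ = Q`
since both sides fix `W` and kill `W^⊥` (`Q` is hermitian).  `P F = P Q F = Q F = F`.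
-/

open Matrix

namespace CF42

variable {K : ℕ}

theorem exists_frame {P Q : Mat K} {k : ℕ} (hQ : Q ∈ Gr P k) :
    ∃ F : Matrix (Fin K) (Fin k) ℂ, Fᴴ * F = 1 ∧ F * Fᴴ = Q ∧ P * F = F := by
  classical
  obtain ⟨h1, h2, h3, h4⟩ := hQ
  have hH : Q.IsHermitian := h1
  set U : Mat K := (hH.eigenvectorUnitary : Mat K) with hU
  have u1 : Uᴴ * U = 1 := by
    have := Unitary.coe_star_mul_self hH.eigenvectorUnitary
    exact this
  set lam : Fin K → ℂ := fun i => (hH.eigenvalues i : ℂ) with hlam
  have hS : Q = U * diagonal lam * Uᴴ := by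
    have h5 := hH.spectral_theorem
    rw [Unitary.conjStarAlgAut_apply] at h5
    exact h5
  have hD : Uᴴ * Q * U = diagonal lam := by
    calc Uᴴ * Q * U = Uᴴ * (U * diagonal lam * Uᴴ) * U := by rw [← hS]
      _ = (Uᴴ * U) * diagonal lam * (Uᴴ * U) := by simp only [Matrix.mul_assoc]
      _ = diagonal lam := by rw [u1, Matrix.one_mul, Matrix.mul_one]
  have hU' : U * Uᴴ = 1 := by
    have := Unitary.coe_mul_star_self hH.eigenvectorUnitary
    exact this
  have hlam2 : ∀ i, lam i * lam i = lam i := by
    have h5 : diagonal lam * diagonal lam = diagonal lam := by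
      rw [← hD]
      calc Uᴴ * Q * U * (Uᴴ * Q * U) = Uᴴ * Q * (U * Uᴴ) * Q * U := by
            simp only [Matrix.mul_assoc]
        _ = Uᴴ * (Q * Q) * U := by rw [hU', Matrix.mul_one]; simp only [Matrix.mul_assoc]
        _ = Uᴴ * Q * U := by rw [h2]
    intro i
    have h6 := congrFun (congrFun h5 i) i
    rw [diagonal_mul_diagonal, diagonal_apply_eq, diagonal_apply_eq] at h6
    exact h6
  have h01 : ∀ i, lam i = 0 ∨ lam i = 1 := by
    intro i
    have h5 : lam i * (lam i - 1) = 0 := by rw [mul_sub, hlam2, mul_one, sub_self]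
    rcases mul_eq_zero.1 h5 with h6 | h6
    · exact Or.inl h6
    · exact Or.inr (sub_eq_zero.1 h6)
  have hcard : Fintype.card {i // lam i = 1} = k := by
    have h5 : Q.trace = ∑ i, lam i := by
      rw [hS, Matrix.trace_mul_comm, ← Matrix.mul_assoc, u1, Matrix.one_mul, Matrix.trace_diagonal]
    have h6 : ∑ i, lam i = (Fintype.card {i // lam i = 1} : ℂ) := by
      rw [Fintype.card_subtype, Finset.card_filter, Nat.cast_sum]
      refine Finset.sum_congr rfl fun i _ => ?_
      rcases h01 i with h | h
      · rw [h, if_neg zero_ne_one, Nat.cast_zero]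
      · rw [h, if_pos rfl, Nat.cast_one]
    rw [h3, h6] at h5
    exact_mod_cast h5.symm
  let e : Fin k ≃ {i // lam i = 1} := (Fintype.equivFinOfCardEq hcard).symm
  let F : Matrix (Fin K) (Fin k) ℂ := fun i j => U i (e j)
  have f1 : Fᴴ * F = 1 := by
    ext i j
    have h5 : (Fᴴ * F) i j = (Uᴴ * U) (e i) (e j) := rfl
    rw [h5, u1, Matrix.one_apply, Matrix.one_apply]
    by_cases hij : i = j
    · rw [if_pos hij, if_pos (by rw [hij])]
    · rw [if_neg hij, if_neg]
      intro h
      exact hij (e.injective (Subtype.ext h))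
  have f2 : F * Fᴴ = Q := by
    ext i j
    rw [hS, Matrix.mul_apply, Matrix.mul_apply]
    have h5 : ∀ l, (U * diagonal lam) i l * Uᴴ l j = lam l * (U i l * star (U j l)) := by
      intro l
      rw [Matrix.mul_diagonal, Matrix.conjTranspose_apply]
      ring
    simp only [h5]
    have h6 : ∑ l, lam l * (U i l * star (U j l)) =
        ∑ l : {i // lam i = 1}, U i l * star (U j l) := by
      have h8 := Finset.sum_subtype (p := fun l => lam l = 1) (F := inferInstance)
        (Finset.univ.filter fun l => lam l = 1) (fun x => by simp)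
        (fun l => U i l * star (U j l))
      rw [← h8, Finset.sum_filter]
      refine Finset.sum_congr rfl fun l _ => ?_
      rcases h01 l with h | h
      · rw [h, if_neg zero_ne_one, zero_mul]
      · rw [h, if_pos rfl, one_mul]
    rw [h6, ← e.sum_comp]
    rfl
  refine ⟨F, f1, f2, ?_⟩
  have h7 : Q * F = F := by rw [← f2, Matrix.mul_assoc, f1, Matrix.mul_one]
  rw [← h7, ← Matrix.mul_assoc, h4]

theorem IsProj.mem_Gr {P : Mat K} {N : ℕ} (hP : IsProj P N) : P ∈ Gr P N :=
  ⟨hP.herm, hP.idem, hP.trace, hP.idem⟩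

end CF42
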