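import Pool.Agent.W_9986fc_h42.Defs

/-!
# Projections from frames

`frame_mem`: `Q = F G⁻¹ Fᴴ`, `G = Fᴴ F` invertible: `Q` hermitian, `Q² = Q`,
`tr Q = tr(G⁻¹ Fᴴ F) = tr 1 = k`, `P Q = Q`.
`finite_bad`: if `det(Fᴴ F) = 0` for `F = F0 + z F1` then `F v = 0` for some `v ≠ 0`
(`Matrix.exists_mulVec_eq_zero_iff`, and `Fᴴ F v = 0` gives `‖F v‖² = 0`), hence
`det(F0ᴴ F0 + z F0ᴴ F1) = 0`; this is a polynomial in `z` which is not zero at `z = 0`, so it has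
finitely many zeros (`Matrix.det` of `C A + X C B`, e.g. `Matrix.eval_det_add_X_smul` or
`Polynomial` with `Matrix.det` of a matrix of polynomials, `RingHom.map_det`).
-/

open Matrix

namespace CF42

variable {K k : ℕ}

theorem frame_mem {P : Mat K} {F : Matrix (Fin K) (Fin k) ℂ} (hPF : P * F = F)
    (hdet : (Fᴴ * F).det ≠ 0) : F * (Fᴴ * F)⁻¹ * Fᴴ ∈ Gr P k := by
  have hu : IsUnit (Fᴴ * F).det := isUnit_iff_ne_zero.mpr hdet
  have hG : ((Fᴴ * F)⁻¹)ᴴ = (Fᴴ * F)⁻¹ := by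
    rw [Matrix.conjTranspose_nonsing_inv, Matrix.conjTranspose_mul,
      Matrix.conjTranspose_conjTranspose]
  refine ⟨?_, ?_, ?_, ?_⟩
  · rw [Matrix.conjTranspose_mul, Matrix.conjTranspose_mul, Matrix.conjTranspose_conjTranspose, hG,
      Matrix.mul_assoc]
  · calc F * (Fᴴ * F)⁻¹ * Fᴴ * (F * (Fᴴ * F)⁻¹ * Fᴴ)
        = F * ((Fᴴ * F)⁻¹ * (Fᴴ * F)) * (Fᴴ * F)⁻¹ * Fᴴ := by
          simp only [Matrix.mul_assoc]
      _ = F * (Fᴴ * F)⁻¹ * Fᴴ := by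
          rw [Matrix.nonsing_inv_mul _ hu, Matrix.mul_one]
  · rw [Matrix.trace_mul_comm, ← Matrix.mul_assoc, Matrix.mul_nonsing_inv _ hu, Matrix.trace_one,
      Fintype.card_fin]
  · rw [← Matrix.mul_assoc, ← Matrix.mul_assoc, hPF]

theorem frame_mem_of_orthonormal {P : Mat K} {F : Matrix (Fin K) (Fin k) ℂ} (hPF : P * F = F)
    (h : Fᴴ * F = 1) : F * Fᴴ ∈ Gr P k := by
  have h1 := frame_mem (k := k) hPF (by rw [h, Matrix.det_one]; exact one_ne_zero)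
  rw [h, inv_one, Matrix.mul_one] at h1
  exact h1

theorem finite_bad (F0 F1 : Matrix (Fin K) (Fin k) ℂ) (h0 : (F0ᴴ * F0).det ≠ 0) :
    {z : ℂ | ((F0 + z • F1)ᴴ * (F0 + z • F1)).det = 0}.Finite := by
  obtain ⟨p, hp⟩ : ∃ p : Polynomial ℂ, ∀ z, p.eval z =
      (F0ᴴ * F0 + z • (F0ᴴ * F1)).det := by
    refine ⟨((F0ᴴ * F0).map Polynomial.C +
      (Polynomial.X : Polynomial ℂ) • (F0ᴴ * F1).map Polynomial.C).det, fun z => ?_⟩
    rw [← Polynomial.coe_evalRingHom, RingHom.map_det]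
    congr 1
    ext i j
    simp only [RingHom.mapMatrix_apply, Matrix.map_apply, Matrix.add_apply, Matrix.smul_apply,
      Polynomial.coe_evalRingHom, Polynomial.eval_add, Polynomial.eval_C, smul_eq_mul,
      Polynomial.eval_mul, Polynomial.eval_X]
  have hp0 : p ≠ 0 := by
    rintro rfl
    have h1 := hp 0
    rw [zero_smul, add_zero, Polynomial.eval_zero] at h1
    exact h0 h1.symm
  refine (Polynomial.finite_setOfPred_isRoot hp0).subset ?_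
  intro z hz
  change p.eval z = 0
  rw [hp z]
  obtain ⟨v, hv, hv0⟩ := Matrix.exists_mulVec_eq_zero_iff.mpr hz
  open scoped ComplexOrder in
  rw [Matrix.conjTranspose_mul_self_mulVec_eq_zero] at hv0
  refine Matrix.exists_mulVec_eq_zero_iff.mp ⟨v, hv, ?_⟩
  have h2 : F0ᴴ * F0 + z • (F0ᴴ * F1) = F0ᴴ * (F0 + z • F1) := by
    rw [Matrix.mul_add, Matrix.mul_smul]
  rw [h2, ← Matrix.mulVec_mulVec, hv0, Matrix.mulVec_zero]

end CF42
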