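import Pool.Agent.W_9986fc_h42.Bas
import Pool.Agent.W_9986fc_h42.FrA
import Pool.Agent.W_9986fc_h42.FrB

/-!
# The sign of the Pfaffian is constant on `Gr P k`

Take orthonormal frames `F0`, `F1` of `Q0`, `Q1` (`exists_frame`), `Fz = F0 + z (F1 - F0)`,
`S` the finite set of `z` with `det(Fzᴴ Fz) = 0` (`finite_bad`); `0, 1 ∉ S`.  On `ℂ \ S`, which is
connected (`Set.Countable.isPathConnected_compl_of_one_lt_rank`, `Complex.rank_real_complex`), the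
function `z ↦ pf (arr M (Fz (Fzᴴ Fz)⁻¹ Fzᴴ))` is continuous (inverse of matrices: `Matrix.inv_def`,
`Ring.inverse` of a nonzero determinant, adjugate) and nonzero by `frame_mem`, so it has constant
sign (`IsPreconnected.image`, intermediate value).
-/

open Matrix

namespace CF42

variable {K : ℕ}

theorem Sgn_cont {Y : Type*} [TopologicalSpace Y] {k : ℕ} {F : Y → Matrix (Fin K) (Fin k) ℂ}
    (hF : Continuous F) (hdet : ∀ y, ((F y)ᴴ * F y).det ≠ 0) (M : Fin 4 → Fin 4 → Mat K) :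
    Continuous fun y => pf (arr M (F y * ((F y)ᴴ * F y)⁻¹ * (F y)ᴴ)) := by
  have hG : Continuous fun y => (F y)ᴴ * F y := hF.matrix_conjTranspose.matrix_mul hF
  have hinv : Continuous fun y => ((F y)ᴴ * F y)⁻¹ := by
    have e : (fun y => ((F y)ᴴ * F y)⁻¹) =
        fun y => (((F y)ᴴ * F y).det)⁻¹ • ((F y)ᴴ * F y).adjugate := by
      funext y
      rw [Matrix.inv_def, Ring.inverse_eq_inv']
    rw [e]
    exact (hG.matrix_det.inv₀ hdet).smul hG.matrix_adjugate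
  have hQ : Continuous fun y => F y * ((F y)ᴴ * F y)⁻¹ * (F y)ᴴ :=
    (hF.matrix_mul hinv).matrix_mul hF.matrix_conjTranspose
  have hc : ∀ i j, Continuous fun y => rt (M i j) (F y * ((F y)ᴴ * F y)⁻¹ * (F y)ᴴ) :=
    fun i j => rt_continuous continuous_const hQ
  exact (((hc 0 1).mul (hc 2 3)).sub ((hc 0 2).mul (hc 1 3))).add ((hc 0 3).mul (hc 1 2))

theorem pf_sign {P : Mat K} {k : ℕ} {M : Fin 4 → Fin 4 → Mat K}
    (h : ∀ Q ∈ Gr P k, pf (arr M Q) ≠ 0) {Q0 Q1 : Mat K} (h0 : Q0 ∈ Gr P k) (h1 : Q1 ∈ Gr P k) :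
    0 < pf (arr M Q0) * pf (arr M Q1) := by
  obtain ⟨F0, hF0, hF0', hP0⟩ := exists_frame h0
  obtain ⟨F1, hF1, hF1', hP1⟩ := exists_frame h1
  set S : Set ℂ := {z : ℂ | ((F0 + z • (F1 - F0))ᴴ * (F0 + z • (F1 - F0))).det = 0} with hS
  have hSf : S.Finite := finite_bad F0 (F1 - F0) (by rw [hF0, Matrix.det_one]; exact one_ne_zero)
  have hconn : IsPathConnected Sᶜ :=
    hSf.countable.isPathConnected_compl_of_one_lt_rank (by
      rw [Complex.rank_real_complex]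
      exact_mod_cast (by norm_num : (1 : ℕ) < 2))
  have e0 : F0 + (0 : ℂ) • (F1 - F0) = F0 := by simp
  have e1 : F0 + (1 : ℂ) • (F1 - F0) = F1 := by simp
  have m0 : (0 : ℂ) ∈ Sᶜ := by
    change ¬ ((F0 + (0 : ℂ) • (F1 - F0))ᴴ * (F0 + (0 : ℂ) • (F1 - F0))).det = 0
    rw [e0, hF0, Matrix.det_one]
    exact one_ne_zero
  have m1 : (1 : ℂ) ∈ Sᶜ := by
    change ¬ ((F0 + (1 : ℂ) • (F1 - F0))ᴴ * (F0 + (1 : ℂ) • (F1 - F0))).det = 0
    rw [e1, hF1, Matrix.det_one]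
    exact one_ne_zero
  let f : ℂ → ℝ := fun z => pf (arr M ((F0 + z • (F1 - F0)) *
    ((F0 + z • (F1 - F0))ᴴ * (F0 + z • (F1 - F0)))⁻¹ * (F0 + z • (F1 - F0))ᴴ))
  have f0 : f 0 = pf (arr M Q0) := by
    change pf (arr M ((F0 + (0 : ℂ) • (F1 - F0)) *
      ((F0 + (0 : ℂ) • (F1 - F0))ᴴ * (F0 + (0 : ℂ) • (F1 - F0)))⁻¹ *
      (F0 + (0 : ℂ) • (F1 - F0))ᴴ)) = _
    rw [e0, hF0, inv_one, Matrix.mul_one, hF0']
  have f1 : f 1 = pf (arr M Q1) := by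
    change pf (arr M ((F0 + (1 : ℂ) • (F1 - F0)) *
      ((F0 + (1 : ℂ) • (F1 - F0))ᴴ * (F0 + (1 : ℂ) • (F1 - F0)))⁻¹ *
      (F0 + (1 : ℂ) • (F1 - F0))ᴴ)) = _
    rw [e1, hF1, inv_one, Matrix.mul_one, hF1']
  have hne : ∀ z ∈ Sᶜ, f z ≠ 0 := by
    intro z hz
    refine h _ (frame_mem ?_ hz)
    rw [Matrix.mul_add, Matrix.mul_smul, Matrix.mul_sub, hP0, hP1]
  have hcont : ContinuousOn f Sᶜ := by
    rw [continuousOn_iff_continuous_domRestrict]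
    refine Sgn_cont (Y := ↥Sᶜ) (F := fun y => F0 + (y : ℂ) • (F1 - F0)) ?_ (fun y => y.2) M
    exact continuous_const.add (continuous_subtype_val.smul continuous_const)
  have hpre : IsPreconnected Sᶜ := hconn.isConnected.isPreconnected
  have n0 := hne 0 m0
  have n1 := hne 1 m1
  rw [← f0, ← f1]
  by_contra hcon
  have hlt : f 0 * f 1 < 0 := lt_of_le_of_ne (not_lt.1 hcon) (mul_ne_zero n0 n1)
  rcases mul_neg_iff.1 hlt with ⟨hp, hn⟩ | ⟨hn, hp⟩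
  · obtain ⟨z, hz, hz0⟩ := hpre.intermediate_value m1 m0 hcont ⟨hn.le, hp.le⟩
    exact hne z hz hz0
  · obtain ⟨z, hz, hz0⟩ := hpre.intermediate_value m0 m1 hcont ⟨hn.le, hp.le⟩
    exact hne z hz hz0

end CF42
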