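import Pool.Agent.W_9986fc_h42.FhB
import Pool.Agent.W_9986fc_h42.CoC
import Pool.Agent.W_9986fc_h42.Sgn

/-!
# Rank two: the set of inner points is clopen

`Ins_local`: on a space `Y` with a continuous frame `F` (`P F = F`, `det(Fᴴ F) ≠ 0`) and
`pf (arr M Q) > 0` on all `Gr (P y) 1`: `Ins P M` is the set of `CoC.clopen` for `AF`, `BF`:
`ρ = fh F (t, v)`, `0 < t`, `‖v‖ ≤ t`; scale to `t = 1` (`pf_arr_smul`), use `fh_pure` on the sphere.
`Ins_clopen`: `IsClopen` is local: for `y0` put `F y = P y * F0`, `F0` an orthonormal frame of `P y0`;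
`det((F y)ᴴ (F y)) ≠ 0` near `y0`; the sign of `pf` on `Gr (P y) 1` is the sign at the projection
`F y e (..)`, i.e. at `fh (F y) (1, e_z)`, which is continuous in `y` (`pf_sign`); if it is negative
use `sw`, `pf_sw`: (`Ins` does not change).
-/

open Matrix

namespace CF42

variable {K : ℕ}

/-- on the sphere the form is positive -/
theorem Clo_sphere {P : Mat K} {M : Fin 4 → Fin 4 → Mat K} {F : Matrix (Fin K) (Fin 2) ℂ}
    (hPF : P * F = F) (hdet : (Fᴴ * F).det ≠ 0) (h : ∀ Q ∈ Gr P 1, 0 < pf (arr M Q))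
    (v : E3) (hv : ‖v‖ = 1) : ‖BF M F (1, v)‖ < ‖AF M F (1, v)‖ := by
  obtain ⟨c, hc, Q, hQ, hcQ⟩ := fh_pure (P := P) hPF hdet (p := ((1 : ℝ), v)) one_pos hv
  have h1 := pf_fh M F ((1 : ℝ), v)
  rw [hcQ, pf_arr_smul] at h1
  have h2 : 0 < c ^ 2 * pf (arr M Q) := mul_pos (by positivity) (h Q hQ)
  have h3 : ‖BF M F (1, v)‖ ^ 2 < ‖AF M F (1, v)‖ ^ 2 := by linarith
  exact lt_of_pow_lt_pow_left₀ 2 (norm_nonneg _) h3

theorem Clo_le_iff (M : Fin 4 → Fin 4 → Mat K) (F : Matrix (Fin K) (Fin 2) ℂ) (p : ℝ × E3) :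
    pf (arr M (fh F p)) ≤ 0 ↔ ‖AF M F p‖ ≤ ‖BF M F p‖ := by
  rw [pf_fh, sub_nonpos]
  constructor
  · intro h1
    exact le_of_sq_le_sq h1 (norm_nonneg _)
  · intro h1
    exact pow_le_pow_left₀ (norm_nonneg _) h1 2

theorem Clo_mul (P : Mat K) (F : Matrix (Fin K) (Fin 2) ℂ) (hPF : P * F = F) (p : ℝ × E3) :
    P * fh F p = fh F p := by
  unfold fh
  rw [Matrix.mul_assoc F, ← Matrix.mul_assoc P, hPF]

theorem Clo_zero (F : Matrix (Fin K) (Fin 2) ℂ) : fh F (0 : ℝ × E3) = 0 := by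
  have h1 := fh_smul F 0 (0 : ℝ × E3)
  simpa using h1

theorem Clo_ne {F : Matrix (Fin K) (Fin 2) ℂ} (hdet : (Fᴴ * F).det ≠ 0) (v : E3) :
    fh F ((1 : ℝ), v) ≠ 0 := by
  intro h0
  have h1 : fh F ((-1 : ℝ) • ((1 : ℝ), v)) = 0 := by
    rw [fh_smul, h0, smul_zero]
  have h2 : Psd (fh F ((-1 : ℝ) • ((1 : ℝ), v))) := by
    rw [h1]
    exact ⟨by simp, fun x => by simp⟩
  have h3 := (fh_psd hdet).1 h2
  have h4 : ((-1 : ℝ) • ((1 : ℝ), v)).1 = -1 := by simp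
  rw [h4] at h3
  have := norm_nonneg ((-1 : ℝ) • ((1 : ℝ), v)).2
  linarith

theorem Ins_local {Y : Type*} [TopologicalSpace Y] {P : Y → Mat K} (hP : ∀ y, IsProj (P y) 2)
    {M : Y → Fin 4 → Fin 4 → Mat K} (hM : ∀ i j, Continuous fun y => M y i j)
    {F : Y → Matrix (Fin K) (Fin 2) ℂ} (hF : Continuous F) (hPF : ∀ y, P y * F y = F y)
    (hdet : ∀ y, ((F y)ᴴ * F y).det ≠ 0) (h : ∀ y, ∀ Q ∈ Gr (P y) 1, 0 < pf (arr (M y) Q)) :
    IsClopen (Ins P M) := by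
  have key := clopen (fun y => AF (M y) (F y)) (fun y => BF (M y) (F y)) (AF_continuous hM hF)
    (BF_continuous hM hF) (fun y v hv => Clo_sphere (hPF y) (hdet y) (h y) v hv)
  have hset : Ins P M = {y | ∃ v : E3, ‖v‖ ≤ 1 ∧
      ‖AF (M y) (F y) (1, v)‖ ≤ ‖BF (M y) (F y) (1, v)‖} := by
    ext y
    constructor
    · rintro ⟨ρ, hρ, hρ0, hPρ, Q, hQ, hle⟩
      obtain ⟨p, hp⟩ := fh_surj (hP y) (hPF y) (hdet y) hρ.1 hPρ
      have hpsd : ‖p.2‖ ≤ p.1 := by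
        rw [← hp] at hρ
        exact (fh_psd (hdet y)).1 hρ
      have hp1 : 0 < p.1 := by
        rcases (le_trans (norm_nonneg _) hpsd).lt_or_eq with h1 | h1
        · exact h1
        · exfalso
          have h2 : p.2 = 0 := by
            rw [← h1] at hpsd
            exact norm_le_zero_iff.1 hpsd
          have h3 : p = 0 := Prod.ext h1.symm h2
          apply hρ0
          rw [← hp, h3, Clo_zero]
      have hle' : pf (arr (M y) ρ) ≤ 0 := by
        by_contra hcon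
        rw [not_le] at hcon
        exact absurd (mul_pos hcon (h y Q hQ)) (not_lt.2 hle)
      have h5 : (((1 : ℝ), (p.1)⁻¹ • p.2) : ℝ × E3) = (p.1)⁻¹ • p := by
        ext1
        · simp [hp1.ne']
        · rfl
      refine ⟨(p.1)⁻¹ • p.2, ?_, ?_⟩
      · rw [norm_smul, Real.norm_eq_abs, abs_of_pos (inv_pos.2 hp1), inv_mul_le_iff₀ hp1]
        linarith
      · rw [← Clo_le_iff, h5, fh_smul, hp, pf_arr_smul]
        exact mul_nonpos_of_nonneg_of_nonpos (by positivity) hle'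
    · rintro ⟨v, hv, hle⟩
      obtain ⟨e, he⟩ : ∃ e : E3, ‖e‖ = 1 := exists_norm_eq E3 zero_le_one
      obtain ⟨c, hc, Q, hQ, -⟩ := fh_pure (P := P y) (hPF y) (hdet y) (p := ((1 : ℝ), e)) one_pos he
      refine ⟨fh (F y) (1, v), (fh_psd (hdet y)).2 hv, Clo_ne (hdet y) v,
        Clo_mul _ _ (hPF y) _, Q, hQ, ?_⟩
      exact mul_nonpos_of_nonpos_of_nonneg ((Clo_le_iff _ _ _).2 hle) (h y Q hQ).le
  rw [hset]
  exact key

end CF42
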