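import Pool.Agent.W_9986fc_h42.Clo

/-!
# Rank two: the set of inner points is clopen, II

`Ins_clopen`: `IsClopen` is local: for `y0` put `F y = P y * F0`, `F0` an orthonormal frame of `P y0`;
`det((F y)ᴴ (F y)) ≠ 0` near `y0`; the sign of `pf` on `Gr (P y) 1` is the sign at the multiple
`fh (F y) (1, e_z)` of an element of `Gr (P y) 1` (`fh_pure`), which is continuous in `y`
(`AF_continuous`, `pf_fh`, `pf_sign`); if it is negative use `sw` and `pf_sw` (`Ins` does not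
change).  Apply `Ins_local` to the subtype of an open neighbourhood
`U` of `y0` and the restricted maps: `Ins P M ∩ U` is open, and so is the complement.
-/

open Matrix

namespace CF42

variable {K : ℕ}

/-- openness is local -/
theorem Clp_open {Y : Type*} [TopologicalSpace Y] {S : Set Y}
    (h : ∀ y0, ∃ U : Set Y, IsOpen U ∧ y0 ∈ U ∧ IsOpen ((fun y : U => (y : Y)) ⁻¹' S)) :
    IsOpen S := by
  rw [isOpen_iff_forall_mem_open]
  intro y0 hy0
  obtain ⟨U, hU, hyU, hS⟩ := h y0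
  refine ⟨(fun y : U => (y : Y)) '' ((fun y : U => (y : Y)) ⁻¹' S), ?_,
    hU.isOpenMap_subtype_val _ hS, ?_⟩
  · rintro _ ⟨y, hy, rfl⟩
    exact hy
  · exact ⟨⟨y0, hyU⟩, hy0, rfl⟩

theorem Clp_sw {Y : Type*} {P : Y → Mat K} {M : Y → Fin 4 → Fin 4 → Mat K}
    (hM' : ∀ y, HermAlt (M y)) : Ins P (fun y => sw (M y)) = Ins P M := by
  ext y
  unfold Ins
  simp only [Set.mem_setOf_eq, pf_sw (hM' y), neg_mul_neg]

theorem Clp_local {Y : Type*} [TopologicalSpace Y] {P : Y → Mat K} (hPc : Continuous P)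
    (hP : ∀ y, IsProj (P y) 2) {M : Y → Fin 4 → Fin 4 → Mat K}
    (hM : ∀ i j, Continuous fun y => M y i j)
    (h : ∀ y, ∀ Q ∈ Gr (P y) 1, pf (arr (M y) Q) ≠ 0) {F : Y → Matrix (Fin K) (Fin 2) ℂ}
    (hF : Continuous F) (hPF : ∀ y, P y * F y = F y) (y0 : Y) (h0 : ((F y0)ᴴ * F y0).det ≠ 0)
    (hpos : 0 < pf (arr (M y0) (fh (F y0) (1, EuclideanSpace.single 2 1)))) :
    ∃ U : Set Y, IsOpen U ∧ y0 ∈ U ∧ IsClopen ((fun y : U => (y : Y)) ⁻¹' Ins P M) := by
  have hdc : Continuous fun y => ((F y)ᴴ * F y).det :=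
    (hF.matrix_conjTranspose.matrix_mul hF).matrix_det
  have hqc : Continuous fun y => pf (arr (M y) (fh (F y) (1, EuclideanSpace.single 2 1))) := by
    have h1 : (fun y => pf (arr (M y) (fh (F y) (1, EuclideanSpace.single 2 1)))) =
        fun y => ‖AF (M y) (F y) (1, EuclideanSpace.single 2 1)‖ ^ 2 -
          ‖BF (M y) (F y) (1, EuclideanSpace.single 2 1)‖ ^ 2 := by
      funext y
      exact pf_fh _ _ _
    rw [h1]
    have h2 : Continuous fun y : Y =>
        ((y, ((1 : ℝ), (EuclideanSpace.single 2 1 : E3))) : Y × (ℝ × E3)) := by fun_prop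
    have h3 := (AF_continuous hM hF).comp h2
    have h4 := (BF_continuous hM hF).comp h2
    exact (h3.norm.pow 2).sub (h4.norm.pow 2)
  obtain ⟨U, hU⟩ : ∃ U : Set Y, U = {y | ((F y)ᴴ * F y).det ≠ 0} ∩
    {y | 0 < pf (arr (M y) (fh (F y) (1, EuclideanSpace.single 2 1)))} := ⟨_, rfl⟩
  have hUo : IsOpen U := by
    rw [hU]
    exact (isOpen_ne_fun hdc continuous_const).inter (isOpen_lt continuous_const hqc)
  have hU1 : ∀ y : U, ((F y.1)ᴴ * F y.1).det ≠ 0 := by
    rintro ⟨y, hy⟩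
    rw [hU] at hy
    exact hy.1
  have hU2 : ∀ y : U, 0 < pf (arr (M y.1) (fh (F y.1) (1, EuclideanSpace.single 2 1))) := by
    rintro ⟨y, hy⟩
    rw [hU] at hy
    exact hy.2
  refine ⟨U, hUo, by rw [hU]; exact ⟨h0, hpos⟩, ?_⟩
  refine Ins_local (Y := U) (P := fun y => P y.1) (M := fun y => M y.1) (F := fun y => F y.1)
    (fun y => hP y.1) (fun i j => (hM i j).comp continuous_subtype_val)
    (hF.comp continuous_subtype_val) (fun y => hPF y.1) hU1 ?_
  intro y Q hQ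
  obtain ⟨c, hc, Q1, hQ1, hQe⟩ := fh_pure (hPF y.1) (hU1 y)
    (p := ((1 : ℝ), (EuclideanSpace.single 2 1 : E3))) one_pos (by simp)
  have h1 := pf_sign (h y.1) hQ1 hQ
  have h2 := hU2 y
  rw [hQe, pf_arr_smul] at h2
  have h3 : 0 < pf (arr (M y.1) Q1) := by
    rcases lt_trichotomy (pf (arr (M y.1) Q1)) 0 with h4 | h4 | h4
    · have h5 : 0 < c ^ 2 := by positivity
      nlinarith
    · rw [h4] at h2
      simp at h2
    · exact h4
  exact (pos_iff_pos_of_mul_pos h1).1 h3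

theorem Ins_clopen {Y : Type*} [TopologicalSpace Y] {P : Y → Mat K} (hPc : Continuous P)
    (hP : ∀ y, IsProj (P y) 2) {M : Y → Fin 4 → Fin 4 → Mat K}
    (hM : ∀ i j, Continuous fun y => M y i j) (hM' : ∀ y, HermAlt (M y))
    (h : ∀ y, ∀ Q ∈ Gr (P y) 1, pf (arr (M y) Q) ≠ 0) : IsClopen (Ins P M) := by
  have key : ∀ y0, ∃ U : Set Y, IsOpen U ∧ y0 ∈ U ∧
      IsClopen ((fun y : U => (y : Y)) ⁻¹' Ins P M) := by
    intro y0
    obtain ⟨F0, hF0, -, hPF0⟩ := exists_frame (hP y0).mem_Gr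
    have hF : Continuous fun y => P y * F0 := hPc.matrix_mul continuous_const
    have hPF : ∀ y, P y * (P y * F0) = P y * F0 := by
      intro y
      rw [← Matrix.mul_assoc, (hP y).idem]
    have h0 : ((P y0 * F0)ᴴ * (P y0 * F0)).det ≠ 0 := by
      rw [hPF0, hF0, Matrix.det_one]
      exact one_ne_zero
    have hne : pf (arr (M y0) (fh (P y0 * F0) (1, EuclideanSpace.single 2 1))) ≠ 0 := by
      obtain ⟨c, hc, Q1, hQ1, hQe⟩ := fh_pure (hPF y0) h0
        (p := ((1 : ℝ), (EuclideanSpace.single 2 1 : E3))) one_pos (by simp)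
      rw [hQe, pf_arr_smul]
      exact mul_ne_zero (by positivity) (h y0 Q1 hQ1)
    rcases lt_or_gt_of_ne hne with h1 | h1
    · have h2 := Clp_local hPc hP (M := fun y => sw (M y)) (fun i j => hM _ _)
        (fun y Q hQ => by
          rw [pf_sw (hM' y)]
          exact neg_ne_zero.2 (h y Q hQ)) hF hPF y0 h0
        (by
          rw [pf_sw (hM' y0)]
          exact neg_pos.2 h1)
      rw [Clp_sw hM'] at h2
      exact h2
    · exact Clp_local hPc hP hM h hF hPF y0 h0 h1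
  refine ⟨⟨Clp_open fun y0 => ?_⟩, Clp_open fun y0 => ?_⟩
  · obtain ⟨U, hU, hyU, hS⟩ := key y0
    exact ⟨U, hU, hyU, hS.1.isOpen_compl⟩
  · obtain ⟨U, hU, hyU, hS⟩ := key y0
    exact ⟨U, hU, hyU, hS.2⟩

end CF42
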