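import Pool.Agent.W_9986fc_h42.Defs

/-!
# Two abstract lemmas on `q = ‖A‖² - ‖B‖²` on `ℝ × ℝ³`

`cone_pos`: `‖v0‖ < t0` (otherwise `h` contradicts `h0`).  Let `v ≠ 0`.  The function
`s ↦ ‖v0 + s v‖² - t0²` is a quadratic polynomial with positive leading coefficient, negative at `0`:
it has roots `s₁ < 0 < s₂`.  At these `(t0, v0 + s v)` is on the cone, so
`g(s) = ‖A (t0, v0 + s v)‖² - ‖B (t0, v0 + s v)‖²` is positive at `s₁`, `s₂` and `≤ 0` at `0`; `g` is a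
quadratic polynomial with leading coefficient `‖A (0,v)‖² - ‖B (0,v)‖²`, which must be positive
(`s₂ g(s₁) - s₁ g(s₂) = (s₂ - s₁) g(0) - s₁ s₂ (s₂ - s₁) lead`).

`crit_le`: let `v1` minimise `g(v) = ‖A (1,v)‖² - ‖B (1,v)‖²` on the closed unit ball.  Then
`g(v1) ≤ g(v0) <` the values on the sphere, so `‖v1‖ < 1` and for every `w` the polynomial
`s ↦ g(v1 + s w) = g(v1) + 2 s (⟪A(1,v1), A(0,w)⟫ - ⟪B(1,v1), B(0,w)⟫) + s² (‖A(0,w)‖² - ‖B(0,w)‖²)`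
has a local minimum at `0`: the linear term vanishes and the quadratic one is `≥ 0`.  It is `> 0` for
`w ≠ 0`, otherwise `g` is constant on the line and the line meets the sphere.  So `w ↦ A (0,w)` is
injective, hence surjective; take `w` with `A (0,w) = A (1,v1)`:
`‖A(1,v1)‖² = ⟪B(1,v1), B(0,w)⟫ ≤ ‖B(1,v1)‖ ‖B(0,w)‖ ≤ ‖B(1,v1)‖ ‖A(1,v1)‖`.
-/

open Matrix

namespace CF42

theorem CoA_expand {E : Type*} [NormedAddCommGroup E] [InnerProductSpace ℝ E] (x y : E) (s : ℝ) :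
    ‖x + s • y‖ ^ 2 = ‖x‖ ^ 2 + 2 * s * inner ℝ x y + s ^ 2 * ‖y‖ ^ 2 := by
  rw [norm_add_sq_real, inner_smul_right, norm_smul, mul_pow, Real.norm_eq_abs, sq_abs]
  ring

theorem CoA_map (A : (ℝ × E3) →ₗ[ℝ] E3) (t : ℝ) (v w : E3) (s : ℝ) :
    A (t, v + s • w) = A (t, v) + s • A (0, w) := by
  rw [← map_smul, ← map_add]
  congr 1
  ext1
  · simp
  · simp

/-- a quadratic polynomial with positive leading coefficient and negative value at `0` has roots of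
both signs -/
theorem CoA_roots (a b c : ℝ) (ha : 0 < a) (hc : c < 0) :
    ∃ s₁ s₂ : ℝ, s₁ < 0 ∧ 0 < s₂ ∧ c + 2 * s₁ * b + s₁ ^ 2 * a = 0 ∧
      c + 2 * s₂ * b + s₂ ^ 2 * a = 0 := by
  have hac : 0 < - (a * c) := by
    have := mul_neg_of_pos_of_neg ha hc
    linarith
  set r := Real.sqrt (b ^ 2 - a * c) with hr
  have hr2 : r ^ 2 = b ^ 2 - a * c := Real.sq_sqrt (by nlinarith [sq_nonneg b])
  have hrb : |b| < r := by
    rw [hr]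
    apply Real.lt_sqrt_of_sq_lt
    rw [sq_abs]
    linarith
  have h1 := (abs_lt.1 hrb).1
  have h2 := (abs_lt.1 hrb).2
  refine ⟨(-b - r) / a, (-b + r) / a, ?_, ?_, ?_, ?_⟩
  · exact div_neg_of_neg_of_pos (by linarith) ha
  · exact div_pos (by linarith) ha
  · field_simp
    nlinarith
  · field_simp
    nlinarith

theorem cone_pos (A B : (ℝ × E3) →ₗ[ℝ] E3)
    (h : ∀ v : E3, v ≠ 0 → ‖B (‖v‖, v)‖ < ‖A (‖v‖, v)‖) {t0 : ℝ} {v0 : E3} (ht : 0 < t0)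
    (hv : ‖v0‖ ≤ t0) (h0 : ‖A (t0, v0)‖ ≤ ‖B (t0, v0)‖) :
    ∀ v : E3, v ≠ 0 → ‖B (0, v)‖ < ‖A (0, v)‖ := by
  have hlt : ‖v0‖ < t0 := by
    rcases lt_or_eq_of_le hv with h1 | h1
    · exact h1
    · exfalso
      have hne : v0 ≠ 0 := by
        intro h2
        rw [h2, norm_zero] at h1
        linarith
      have h3 := h v0 hne
      rw [h1] at h3
      linarith
  intro v hvne
  have hvpos : 0 < ‖v‖ := norm_pos_iff.2 hvne
  obtain ⟨s₁, s₂, hs₁, hs₂, e₁, e₂⟩ := CoA_roots (‖v‖ ^ 2) (inner ℝ v0 v) (‖v0‖ ^ 2 - t0 ^ 2)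
    (by positivity) (by nlinarith [norm_nonneg v0])
  have hroot : ∀ s : ℝ, ‖v0‖ ^ 2 - t0 ^ 2 + 2 * s * inner ℝ v0 v + s ^ 2 * ‖v‖ ^ 2 = 0 →
      ‖B (t0, v0) + s • B (0, v)‖ ^ 2 < ‖A (t0, v0) + s • A (0, v)‖ ^ 2 := by
    intro s hs
    have h1 : ‖v0 + s • v‖ ^ 2 = t0 ^ 2 := by
      rw [CoA_expand]
      linarith
    have h2 : ‖v0 + s • v‖ = t0 := by
      rwa [pow_left_inj₀ (norm_nonneg _) ht.le (by norm_num)] at h1
    have h3 : v0 + s • v ≠ 0 := by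
      intro h4
      rw [h4, norm_zero] at h2
      linarith
    have h5 := h _ h3
    rw [h2, CoA_map, CoA_map] at h5
    exact pow_lt_pow_left₀ h5 (norm_nonneg _) (by norm_num)
  have g₁ := hroot s₁ e₁
  have g₂ := hroot s₂ e₂
  rw [CoA_expand, CoA_expand] at g₁ g₂
  have h0' : ‖A (t0, v0)‖ ^ 2 ≤ ‖B (t0, v0)‖ ^ 2 := pow_le_pow_left₀ (norm_nonneg _) h0 2
  by_contra hcon
  rw [not_lt] at hcon
  have hcon' : ‖A (0, v)‖ ^ 2 ≤ ‖B (0, v)‖ ^ 2 := pow_le_pow_left₀ (norm_nonneg _) hcon 2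
  set p := ‖A (t0, v0)‖ ^ 2 - ‖B (t0, v0)‖ ^ 2 with hp
  set q := ‖A (0, v)‖ ^ 2 - ‖B (0, v)‖ ^ 2 with hq
  set x := inner ℝ (A (t0, v0)) (A (0, v)) - inner ℝ (B (t0, v0)) (B (0, v)) with hx
  have k₁ : 0 < p + 2 * s₁ * x + s₁ ^ 2 * q := by
    rw [hp, hq, hx]
    linarith
  have k₂ : 0 < p + 2 * s₂ * x + s₂ ^ 2 * q := by
    rw [hp, hq, hx]
    linarith
  have hp0 : p ≤ 0 := by rw [hp]; linarith
  have hq0 : q ≤ 0 := by rw [hq]; linarith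
  have l₁ := mul_pos hs₂ k₁
  have l₂ := mul_pos (neg_pos.2 hs₁) k₂
  have l₃ : s₂ * (p + 2 * s₁ * x + s₁ ^ 2 * q) + -s₁ * (p + 2 * s₂ * x + s₂ ^ 2 * q)
      = (s₂ - s₁) * p + (s₂ * (-s₁)) * (s₂ - s₁) * q := by ring
  have l₄ : (s₂ - s₁) * p ≤ 0 := mul_nonpos_of_nonneg_of_nonpos (by linarith) hp0
  have l₅ : (s₂ * (-s₁)) * (s₂ - s₁) * q ≤ 0 :=
    mul_nonpos_of_nonneg_of_nonpos
      (mul_nonneg (mul_nonneg hs₂.le (by linarith)) (by linarith)) hq0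
  linarith

end CF42
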