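import Pool.Agent.W_9986fc_h42.Defs

/-!
# Two abstract lemmas on `q = ‖A‖² - ‖B‖²` on `ℝ × ℝ³`, II

`crit_le`: let `v1` minimise `g(v) = ‖A (1,v)‖² - ‖B (1,v)‖²` on the closed unit ball.  Then
`g(v1) ≤ g(v0) <` the values on the sphere, so `‖v1‖ < 1` and for every `w` the polynomial
`s ↦ g(v1 + s w) = g(v1) + 2 s (⟪A(1,v1), A(0,w)⟫ - ⟪B(1,v1), B(0,w)⟫) + s² (‖A(0,w)‖² - ‖B(0,w)‖²)`
has a local minimum at `0`: the linear term vanishes and the quadratic one is `≥ 0`.  It is `> 0` for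
`w ≠ 0`, otherwise `g` is constant on the line and the line meets the sphere.  So `w ↦ A (0,w)` is
injective, hence surjective; take `w` with `A (0,w) = A (1,v1)`:
`‖A(1,v1)‖² = ⟪B(1,v1), B(0,w)⟫ ≤ ‖B(1,v1)‖ ‖B(0,w)‖ ≤ ‖B(1,v1)‖ ‖A(1,v1)‖`.
-/

open Matrix

namespace CF42

theorem CoB_exp (A : (ℝ × E3) →ₗ[ℝ] E3) (v w : E3) (s : ℝ) :
    ‖A (1, v + s • w)‖ ^ 2 =
      ‖A (1, v)‖ ^ 2 + 2 * s * inner ℝ (A (1, v)) (A (0, w)) + s ^ 2 * ‖A (0, w)‖ ^ 2 := by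
  have h1 : A (1, v + s • w) = A (1, v) + s • A (0, w) := by
    rw [← map_smul, ← map_add]
    congr 1
    ext <;> simp
  rw [h1, norm_add_sq_real, inner_smul_right, norm_smul, mul_pow, Real.norm_eq_abs, sq_abs]
  ring

theorem crit_le (A B : (ℝ × E3) →ₗ[ℝ] E3) {v0 : E3} (hv0 : ‖v0‖ ≤ 1)
    (h : ∀ v : E3, ‖v‖ = 1 → ‖A (1, v0)‖ ^ 2 - ‖B (1, v0)‖ ^ 2 < ‖A (1, v)‖ ^ 2 - ‖B (1, v)‖ ^ 2) :
    ∃ v1 : E3, ‖v1‖ ≤ 1 ∧ ‖A (1, v1)‖ ≤ ‖B (1, v1)‖ := by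
  set G : E3 → ℝ := fun v => ‖A (1, v)‖ ^ 2 - ‖B (1, v)‖ ^ 2 with hG
  have cA : Continuous A := A.continuous_of_finiteDimensional
  have cB : Continuous B := B.continuous_of_finiteDimensional
  have cp : Continuous fun v : E3 => ((1 : ℝ), v) := by fun_prop
  have cG : Continuous G := by
    have h1 := (cA.comp cp).norm.pow 2
    have h2 := (cB.comp cp).norm.pow 2
    exact h1.sub h2
  obtain ⟨v1, hv1, hmin⟩ := (isCompact_closedBall (0 : E3) 1).exists_isMinOn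
    ⟨v0, by simpa using hv0⟩ cG.continuousOn
  have hv1' : ‖v1‖ ≤ 1 := by simpa using hv1
  have hm : ∀ v : E3, ‖v‖ ≤ 1 → G v1 ≤ G v := fun v hv => hmin (by simpa using hv)
  have hlt : ∀ v : E3, ‖v‖ = 1 → G v1 < G v := fun v hv => (hm v0 hv0).trans_lt (h v hv)
  have hv1'' : ‖v1‖ < 1 := lt_of_le_of_ne hv1' fun h1 => lt_irrefl _ (hlt v1 h1)
  have hexp : ∀ (w : E3) (s : ℝ), G (v1 + s • w) = G v1 + 2 * s *
      (inner ℝ (A (1, v1)) (A (0, w)) - inner ℝ (B (1, v1)) (B (0, w))) +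
      s ^ 2 * (‖A (0, w)‖ ^ 2 - ‖B (0, w)‖ ^ 2) := by
    intro w s
    simp only [hG]
    rw [CoB_exp A, CoB_exp B]
    ring
  have hc : ∀ w : E3, inner ℝ (A (1, v1)) (A (0, w)) - inner ℝ (B (1, v1)) (B (0, w)) = 0 ∧
      0 ≤ ‖A (0, w)‖ ^ 2 - ‖B (0, w)‖ ^ 2 := by
    intro w
    set c := inner ℝ (A (1, v1)) (A (0, w)) - inner ℝ (B (1, v1)) (B (0, w)) with hc
    set q := ‖A (0, w)‖ ^ 2 - ‖B (0, w)‖ ^ 2 with hq
    -- small s stay in the ball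
    have hs : ∃ ε > 0, ∀ s : ℝ, |s| ≤ ε → ‖v1 + s • w‖ ≤ 1 := by
      refine ⟨(1 - ‖v1‖) / (‖w‖ + 1), div_pos (by linarith) (by positivity), fun s hs => ?_⟩
      have hw : 0 < ‖w‖ + 1 := by positivity
      have h1 : |s| * ‖w‖ ≤ 1 - ‖v1‖ := by
        calc |s| * ‖w‖ ≤ (1 - ‖v1‖) / (‖w‖ + 1) * (‖w‖ + 1) := by
              gcongr
              · linarith
          _ = 1 - ‖v1‖ := by field_simp
      calc ‖v1 + s • w‖ ≤ ‖v1‖ + ‖s • w‖ := norm_add_le _ _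
        _ = ‖v1‖ + |s| * ‖w‖ := by rw [norm_smul, Real.norm_eq_abs]
        _ ≤ 1 := by linarith
    obtain ⟨ε, hε, hs⟩ := hs
    have key : ∀ s : ℝ, |s| ≤ ε → 0 ≤ 2 * s * c + s ^ 2 * q := by
      intro s hs'
      have h1 := hm _ (hs s hs')
      rw [hexp] at h1
      linarith
    have key2 : ∀ s : ℝ, 0 < s → s ≤ ε → |2 * c| ≤ s * q := by
      intro s h1 h2
      have h3 := key s (by rw [abs_of_pos h1]; exact h2)
      have h4 := key (-s) (by rw [abs_neg, abs_of_pos h1]; exact h2)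
      rw [abs_le]
      constructor
      · nlinarith
      · nlinarith
    have hq0 : 0 ≤ q := by
      by_contra hneg
      have h1 := key2 ε hε le_rfl
      have h2 := abs_nonneg (2 * c)
      nlinarith
    refine ⟨?_, hq0⟩
    by_contra hne
    have h1 : 0 < |2 * c| := abs_pos.2 (by simpa using hne)
    have h2 := key2 (min ε (|2 * c| / (2 * (q + 1)))) (lt_min hε (by positivity)) (min_le_left _ _)
    have h3 : min ε (|2 * c| / (2 * (q + 1))) * q ≤ |2 * c| / 2 := by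
      calc min ε (|2 * c| / (2 * (q + 1))) * q ≤ |2 * c| / (2 * (q + 1)) * q := by
            gcongr
            exact min_le_right _ _
        _ ≤ |2 * c| / (2 * (q + 1)) * (q + 1) := by
            gcongr
            linarith
        _ = |2 * c| / 2 := by field_simp
    linarith
  have hpos : ∀ w : E3, w ≠ 0 → 0 < ‖A (0, w)‖ ^ 2 - ‖B (0, w)‖ ^ 2 := by
    intro w hw
    refine lt_of_le_of_ne (hc w).2 fun h0 => ?_
    have hconst : ∀ s : ℝ, G (v1 + s • w) = G v1 := by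
      intro s
      rw [hexp, (hc w).1, ← h0]
      ring
    have hcont : Continuous fun s : ℝ => ‖v1 + s • w‖ := by fun_prop
    have hw' : 0 < ‖w‖ := norm_pos_iff.2 hw
    have hbig : 1 ≤ ‖v1 + (2 / ‖w‖) • w‖ := by
      have h1 : ‖(2 / ‖w‖) • w‖ = 2 := by
        rw [norm_smul, Real.norm_eq_abs, abs_of_pos (by positivity)]
        field_simp
      have h2 : ‖(2 / ‖w‖) • w‖ ≤ ‖v1 + (2 / ‖w‖) • w‖ + ‖v1‖ := by
        calc ‖(2 / ‖w‖) • w‖ = ‖v1 + (2 / ‖w‖) • w - v1‖ := by rw [add_sub_cancel_left]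
          _ ≤ _ := norm_sub_le _ _
      linarith
    have hIVT := intermediate_value_Icc (show (0 : ℝ) ≤ 2 / ‖w‖ by positivity) hcont.continuousOn
    obtain ⟨s, -, hs⟩ := hIVT (show (1 : ℝ) ∈ Set.Icc _ _ from
      ⟨by simpa using hv1', hbig⟩)
    have h1 := hlt _ hs
    rw [hconst] at h1
    exact lt_irrefl _ h1
  -- surjectivity
  set T : E3 →ₗ[ℝ] E3 := A ∘ₗ LinearMap.inr ℝ ℝ E3 with hT
  have hTw : ∀ w, T w = A (0, w) := fun w => rfl
  have hinj : Function.Injective T := by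
    rw [← LinearMap.ker_eq_bot, LinearMap.ker_eq_bot']
    intro w hw
    by_contra hne
    have h1 := hpos w hne
    rw [← hTw, hw, norm_zero] at h1
    have h2 := sq_nonneg ‖B (0, w)‖
    linarith
  obtain ⟨w, hw⟩ := LinearMap.injective_iff_surjective.1 hinj (A (1, v1))
  rw [hTw] at hw
  refine ⟨v1, hv1', ?_⟩
  have h1 := (hc w).1
  have h2 := (hc w).2
  rw [hw, real_inner_self_eq_norm_sq] at h1
  rw [hw] at h2
  have h3 := real_inner_le_norm (B (1, v1)) (B (0, w))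
  have h4 : ‖B (0, w)‖ ≤ ‖A (1, v1)‖ := by
    refine le_of_sq_le_sq ?_ (norm_nonneg _)
    linarith
  by_cases h5 : ‖A (1, v1)‖ = 0
  · rw [h5]; exact norm_nonneg _
  · have h6 : 0 < ‖A (1, v1)‖ := lt_of_le_of_ne (norm_nonneg _) (Ne.symm h5)
    have h7 : ‖A (1, v1)‖ * ‖A (1, v1)‖ ≤ ‖B (1, v1)‖ * ‖A (1, v1)‖ := by
      calc ‖A (1, v1)‖ * ‖A (1, v1)‖ = inner ℝ (B (1, v1)) (B (0, w)) := by nlinarith
        _ ≤ ‖B (1, v1)‖ * ‖B (0, w)‖ := h3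
        _ ≤ ‖B (1, v1)‖ * ‖A (1, v1)‖ := by gcongr
    exact le_of_mul_le_mul_right h7 h6

end CF42
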