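import Pool.Agent.W_9986fc_h42.Tan

/-!
# The form `i tr(Q [dQ, dQ])` is closed

`E` a real normed space, `Q : E → Mat K` of class `C²` near `x` with `Q² = Q` near `x`.  With
`a = DQ u`, `b = DQ v`, `c = DQ w` at `x` the derivative of `x ↦ tr(Q [DQ v, DQ w])` in direction `u`
is `tr(a [b, c]) + tr(Q [D²Q(u,v), c]) + tr(Q [b, D²Q(u,w)])`; in the cyclic sum the second
derivatives cancel (symmetric), and `tr(a[b,c])` is invariant under cyclic permutations, so the
sum is `3 tr(a [b,c])`.  From `Q a + a Q = a` etc.: `a` is odd with respect to `2Q-1`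
(`(2Q-1) a = - a (2Q-1)`), so `tr(abc) = tr((2Q-1)² abc) = - tr(abc)`.
-/

open Matrix

namespace CF42

variable {K : ℕ} {E : Type*} [NormedAddCommGroup E] [NormedSpace ℝ E]

theorem trace_odd {Q a b c : Mat K} (hQ : Q * Q = Q) (ha : Q * a + a * Q = a)
    (hb : Q * b + b * Q = b) (hc : Q * c + c * Q = c) : (a * b * c).trace = 0 := by
  set J : Mat K := Q + Q - 1 with hJ
  have hJJ : J * J = 1 := by
    rw [hJ]
    have : (Q + Q - 1) * (Q + Q - 1) = Q * Q + Q * Q + Q * Q + Q * Q - Q - Q - Q - Q + 1 := by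
      noncomm_ring
    rw [this, hQ]
    abel
  have hodd : ∀ x : Mat K, Q * x + x * Q = x → J * x = -(x * J) := by
    intro x hx
    rw [hJ]
    have h1 : (Q + Q - 1) * x + x * (Q + Q - 1) = (Q * x + x * Q) + (Q * x + x * Q) - x - x := by
      noncomm_ring
    rw [hx] at h1
    have h2 : (Q + Q - 1) * x + x * (Q + Q - 1) = 0 := by rw [h1]; abel
    exact eq_neg_of_add_eq_zero_left h2
  have h1 : J * (a * b * c) = -(a * b * c * J) := by
    calc J * (a * b * c) = (J * a) * b * c := by noncomm_ring
      _ = -(a * (J * b) * c) := by rw [hodd a ha]; noncomm_ring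
      _ = (a * b * (J * c)) := by rw [hodd b hb]; noncomm_ring
      _ = -(a * b * c * J) := by rw [hodd c hc]; noncomm_ring
  have h2 : (a * b * c).trace = -(a * b * c).trace := by
    calc (a * b * c).trace = (J * (J * (a * b * c))).trace := by
          rw [← mul_assoc, hJJ, one_mul]
      _ = (J * (a * b * c) * J).trace := Matrix.trace_mul_comm _ _
      _ = (-(a * b * c * J) * J).trace := by rw [h1]
      _ = -(a * b * c).trace := by
          rw [neg_mul, mul_assoc, hJJ, mul_one, Matrix.trace_neg]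
  exact self_eq_neg.1 h2

/-- the derivative of a matrix valued function, entry by entry -/
noncomputable def dm (Q : E → Mat K) (y u : E) : Mat K :=
  Matrix.of fun i j => fderiv ℝ (fun z => Q z i j) y u

private theorem dm_mul {X Y : E → Mat K} {x : E}
    (hX : ∀ i j, DifferentiableAt ℝ (fun y => X y i j) x)
    (hY : ∀ i j, DifferentiableAt ℝ (fun y => Y y i j) x) (z : E) :
    dm (fun y => X y * Y y) x z = dm X x z * Y x + X x * dm Y x z := by
  ext i j
  have h : (fun y => (X y * Y y) i j) = fun y => ∑ k, X y i k * Y y k j := by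
    funext y
    rw [Matrix.mul_apply]
  have h1 : HasFDerivAt (fun y => ∑ k, X y i k * Y y k j)
      (∑ k, (X x i k • fderiv ℝ (fun y => Y y k j) x + Y x k j • fderiv ℝ (fun y => X y i k) x)) x :=
    HasFDerivAt.fun_sum fun k _ => ((hX i k).hasFDerivAt.mul (hY k j).hasFDerivAt)
  change fderiv ℝ (fun y => (X y * Y y) i j) x z = _
  rw [h, h1.fderiv]
  simp only [_root_.sum_apply, _root_.add_apply,
    _root_.smul_apply, smul_eq_mul, Matrix.add_apply, Matrix.mul_apply, dm,
    Matrix.of_apply]
  rw [← Finset.sum_add_distrib]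
  refine Finset.sum_congr rfl fun k _ => ?_
  ring

private theorem diff_mul {X Y : E → Mat K} {x : E}
    (hX : ∀ i j, DifferentiableAt ℝ (fun y => X y i j) x)
    (hY : ∀ i j, DifferentiableAt ℝ (fun y => Y y i j) x) :
    ∀ i j, DifferentiableAt ℝ (fun y => (X y * Y y) i j) x := by
  intro i j
  have h : (fun y => (X y * Y y) i j) = fun y => ∑ k, X y i k * Y y k j := by
    funext y
    rw [Matrix.mul_apply]
  rw [h]
  exact DifferentiableAt.fun_sum fun k _ => (hX i k).mul (hY k j)

private theorem fderiv_trace {X : E → Mat K} {x : E}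
    (hX : ∀ i j, DifferentiableAt ℝ (fun y => X y i j) x) (z : E) :
    fderiv ℝ (fun y => (X y).trace) x z = (dm X x z).trace := by
  have h : (fun y => (X y).trace) = fun y => ∑ i, X y i i := by
    funext y
    rfl
  rw [h, fderiv_fun_sum fun i _ => hX i i]
  simp only [_root_.sum_apply, Matrix.trace, Matrix.diag, dm, Matrix.of_apply]

private theorem diff_trace {X : E → Mat K} {x : E}
    (hX : ∀ i j, DifferentiableAt ℝ (fun y => X y i j) x) :
    DifferentiableAt ℝ (fun y => (X y).trace) x := by
  have h : (fun y => (X y).trace) = fun y => ∑ i, X y i i := by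
    funext y
    rfl
  rw [h]
  exact DifferentiableAt.fun_sum fun i _ => hX i i

private theorem fderiv_kf {Q A B : E → Mat K} {x : E}
    (hQ : ∀ i j, DifferentiableAt ℝ (fun y => Q y i j) x)
    (hA : ∀ i j, DifferentiableAt ℝ (fun y => A y i j) x)
    (hB : ∀ i j, DifferentiableAt ℝ (fun y => B y i j) x) (z : E) :
    fderiv ℝ (fun y => kf (Q y) (A y) (B y)) x z =
      (Complex.I * ((dm Q x z * A x * B x).trace + (Q x * dm A x z * B x).trace +
        (Q x * A x * dm B x z).trace - (dm Q x z * B x * A x).trace -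
        (Q x * dm B x z * A x).trace - (Q x * B x * dm A x z).trace)).re := by
  have h1 : (fun y => kf (Q y) (A y) (B y)) = fun y =>
      Complex.reCLM (Complex.I * ((Q y * A y * B y).trace - (Q y * B y * A y).trace)) := by
    funext y
    rw [kf, Complex.reCLM_apply, ← Matrix.trace_sub, mul_sub, ← mul_assoc, ← mul_assoc]
  have hd1 := diff_trace (diff_mul (diff_mul hQ hA) hB)
  have hd2 := diff_trace (diff_mul (diff_mul hQ hB) hA)
  have hd : HasFDerivAt (fun y => Complex.I * ((Q y * A y * B y).trace - (Q y * B y * A y).trace))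
      (Complex.I • (fderiv ℝ (fun y => (Q y * A y * B y).trace) x -
        fderiv ℝ (fun y => (Q y * B y * A y).trace) x)) x :=
    (hd1.hasFDerivAt.sub hd2.hasFDerivAt).const_mul Complex.I
  rw [h1]
  have h2 := (Complex.reCLM.hasFDerivAt.comp x hd).fderiv
  have h3 : fderiv ℝ (fun y => Complex.reCLM
      (Complex.I * ((Q y * A y * B y).trace - (Q y * B y * A y).trace))) x z =
      Complex.reCLM ((Complex.I • (fderiv ℝ (fun y => (Q y * A y * B y).trace) x -
        fderiv ℝ (fun y => (Q y * B y * A y).trace) x)) z) :=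
    congrArg (fun L => L z) h2
  rw [h3, Complex.reCLM_apply]
  congr 1
  rw [_root_.smul_apply, _root_.sub_apply, smul_eq_mul,
    fderiv_trace (diff_mul (diff_mul hQ hA) hB), fderiv_trace (diff_mul (diff_mul hQ hB) hA),
    dm_mul (diff_mul hQ hA) hB, dm_mul (diff_mul hQ hB) hA, dm_mul hQ hA, dm_mul hQ hB]
  simp only [add_mul, Matrix.trace_add]
  ring

theorem extDeriv_kf {Q : E → Mat K} {x : E}
    (hQ : ∀ i j, ContDiffAt ℝ 2 (fun y => Q y i j) x)
    (hid : ∀ᶠ y in nhds x, Q y * Q y = Q y)
    {ω : E → E [⋀^Fin 2]→L[ℝ] ℝ}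
    (hω : ∀ᶠ y in nhds x, ∀ u v, ω y ![u, v] = kf (Q y) (dm Q y u) (dm Q y v)) :
    extDeriv ω x = 0 := by
  by_cases hd : DifferentiableAt ℝ ω x
  swap
  · rw [extDeriv, fderiv_zero_of_not_differentiableAt hd]
    ext v
    rw [ContinuousAlternatingMap.alternatizeUncurryFin_apply]
    refine Finset.sum_eq_zero fun i _ => ?_
    change (-1 : ℤ) ^ (i : ℕ) • (0 : ℝ) = 0
    rw [smul_zero]
  have hQd : ∀ i j, DifferentiableAt ℝ (fun y => Q y i j) x := fun i j =>
    (hQ i j).differentiableAt (by norm_num)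
  have hDd : ∀ u : E, ∀ i j, DifferentiableAt ℝ (fun y => dm Q y u i j) x := by
    intro u i j
    have h1 : ContDiffAt ℝ 1 (fderiv ℝ (fun y => Q y i j)) x :=
      (hQ i j).fderiv_right (by norm_num)
    have h2 : DifferentiableAt ℝ (fderiv ℝ (fun y => Q y i j)) x :=
      h1.differentiableAt (by norm_num)
    exact h2.clm_apply (differentiableAt_const u)
  have hsym : ∀ u v : E, dm (fun y => dm Q y u) x v = dm (fun y => dm Q y v) x u := by
    intro u v
    ext i j
    have h1 : ContDiffAt ℝ 1 (fderiv ℝ (fun y => Q y i j)) x :=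
      (hQ i j).fderiv_right (by norm_num)
    have h2 : DifferentiableAt ℝ (fderiv ℝ (fun y => Q y i j)) x :=
      h1.differentiableAt (by norm_num)
    have h3 : ∀ a b : E, fderiv ℝ (fun y => fderiv ℝ (fun z => Q z i j) y a) x b =
        fderiv ℝ (fderiv ℝ (fun z => Q z i j)) x b a := by
      intro a b
      rw [fderiv_clm_apply h2 (differentiableAt_const a)]
      simp
    change fderiv ℝ (fun y => fderiv ℝ (fun z => Q z i j) y u) x v =
      fderiv ℝ (fun y => fderiv ℝ (fun z => Q z i j) y v) x u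
    rw [h3, h3]
    exact ((hQ i j).isSymmSndFDerivAt (by simp)).eq v u
  have hodd : ∀ u : E, Q x * dm Q x u + dm Q x u * Q x = dm Q x u := by
    intro u
    have h1 : dm (fun y => Q y * Q y) x u = dm Q x u := by
      ext i j
      change fderiv ℝ (fun y => (Q y * Q y) i j) x u = fderiv ℝ (fun y => Q y i j) x u
      have h2 : (fun y => (Q y * Q y) i j) =ᶠ[nhds x] fun y => Q y i j := by
        filter_upwards [hid] with y hy
        rw [hy]
      rw [h2.fderiv_eq]
    rw [dm_mul hQd hQd] at h1
    rw [add_comm]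
    exact h1
  have hQx : Q x * Q x = Q x := hid.self_of_nhds
  ext v
  rw [extDeriv_apply hd]
  have hder : ∀ a b z : E, fderiv ℝ (fun y => ω y ![a, b]) x z =
      (Complex.I * ((dm Q x z * dm Q x a * dm Q x b).trace +
        (Q x * dm (fun y => dm Q y a) x z * dm Q x b).trace +
        (Q x * dm Q x a * dm (fun y => dm Q y b) x z).trace -
        (dm Q x z * dm Q x b * dm Q x a).trace -
        (Q x * dm (fun y => dm Q y b) x z * dm Q x a).trace -
        (Q x * dm Q x b * dm (fun y => dm Q y a) x z).trace)).re := by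
    intro a b z
    have h1 : (fun y => ω y ![a, b]) =ᶠ[nhds x] fun y => kf (Q y) (dm Q y a) (dm Q y b) := by
      filter_upwards [hω] with y hy
      exact hy a b
    rw [h1.fderiv_eq]
    exact fderiv_kf hQd (hDd a) (hDd b) z
  have e0 : (Fin.removeNth 0 v : Fin 2 → E) = ![v 1, v 2] := by
    ext i
    fin_cases i <;> rfl
  have e1 : (Fin.removeNth 1 v : Fin 2 → E) = ![v 0, v 2] := by
    ext i
    fin_cases i <;> rfl
  have e2 : (Fin.removeNth 2 v : Fin 2 → E) = ![v 0, v 1] := by
    ext i
    fin_cases i <;> rfl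
  rw [Fin.sum_univ_three, e0, e1, e2, hder, hder, hder]
  have t : ∀ a b c : E, (dm Q x a * dm Q x b * dm Q x c).trace = 0 := fun a b c =>
    trace_odd hQx (hodd a) (hodd b) (hodd c)
  rw [t, t, t, t, t, t, hsym (v 0) (v 1), hsym (v 0) (v 2), hsym (v 1) (v 2)]
  change _ = (0 : ℝ)
  simp only [Fin.val_zero, Fin.val_one, Fin.val_two, pow_zero, pow_one, one_smul, neg_smul,
    Complex.mul_re, Complex.I_re, Complex.I_im,
    Complex.add_im, Complex.sub_im, Complex.zero_im, Complex.add_re, Complex.sub_re,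
    Complex.zero_re]
  ring

end CF42
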