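import Pool.Agent.W_9986fc_h42.FhB
import Pool.Agent.W_9986fc_h42.CoA
import Pool.Agent.W_9986fc_h42.Sgn

/-!
# Rank two: inner points are fat

Take an orthonormal frame `F` of `P` (`exists_frame`, `k = 2`).  By `pf_sign` the Pfaffian has
constant sign on `Gr P 1`; replacing `M` by `sw`, `pf_sw` we may assume it is positive.  Then by `fh_pure`
`‖BF p‖ < ‖AF p‖` for all `p` on the cone.  `ρ = fh F (t0,v0)` with `‖v0‖ ≤ t0` (`fh_surj`,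
`fh_psd`), `t0 > 0` as `ρ ≠ 0`, and `‖AF (t0,v0)‖ ≤ ‖BF (t0,v0)‖`.  `ξ = fh F (t,v)` with
`tr ξ = 2 t = 0` (`h2_trace`, `Fᴴ F = 1`), `v ≠ 0`; `cone_pos`.
-/

open Matrix

namespace CF42

variable {K : ℕ}

theorem FatP_lt {a b : ℝ} (hb : 0 ≤ b) (h : 0 < b ^ 2 - a ^ 2) : a < b :=
  lt_of_pow_lt_pow_left₀ 2 hb (by linarith)

theorem FatP_le {a b : ℝ} (hb : 0 ≤ b) (h : a ^ 2 - b ^ 2 ≤ 0) : a ≤ b :=
  le_of_sq_le_sq (by linarith) hb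

theorem FatP_pos {P : Mat K} (hP : IsProj P 2) {M : Fin 4 → Fin 4 → Mat K}
    (h : ∀ Q ∈ Gr P 1, 0 < pf (arr M Q)) {ρ : Mat K} (hρ : Psd ρ) (hρ0 : ρ ≠ 0)
    (hPρ : P * ρ = ρ) (hle : pf (arr M ρ) ≤ 0)
    {ξ : Mat K} (hξ : ξᴴ = ξ) (hPξ : P * ξ = ξ) (hξt : ξ.trace = 0) (hξ0 : ξ ≠ 0) :
    0 < pf (arr M ξ) := by
  obtain ⟨F, hF1, hF2, hF3⟩ := exists_frame hP.mem_Gr
  have hdet : (Fᴴ * F).det ≠ 0 := by
    rw [hF1, Matrix.det_one]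
    exact one_ne_zero
  have hcone : ∀ v : E3, v ≠ 0 → ‖BF M F (‖v‖, v)‖ < ‖AF M F (‖v‖, v)‖ := by
    intro v hv
    have hv' : 0 < ‖v‖ := norm_pos_iff.2 hv
    obtain ⟨c, hc, Q, hQ, hfh⟩ := fh_pure hF3 hdet (p := (‖v‖, v)) hv' rfl
    have h1 := pf_fh M F (‖v‖, v)
    rw [hfh, pf_arr_smul] at h1
    refine FatP_lt (norm_nonneg _) ?_
    rw [← h1]
    exact mul_pos (pow_pos hc 2) (h Q hQ)
  have hzero : fh F (0 : ℝ × E3) = 0 := by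
    have h1 := fh_smul F 0 (0 : ℝ × E3)
    rwa [zero_smul, Complex.ofReal_zero, zero_smul] at h1
  obtain ⟨⟨t0, v0⟩, hp⟩ := fh_surj hP hF3 hdet hρ.1 hPρ
  have hpsd : ‖v0‖ ≤ t0 := by
    rw [← hp] at hρ
    exact (fh_psd (p := ((t0, v0) : ℝ × E3)) hdet).1 hρ
  have ht0 : 0 < t0 := by
    rcases lt_or_ge 0 t0 with h1 | h1
    · exact h1
    · exfalso
      have h2 : ‖v0‖ = 0 := le_antisymm (hpsd.trans h1) (norm_nonneg _)
      have h3 : v0 = 0 := norm_eq_zero.1 h2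
      have h4 : t0 = 0 := le_antisymm h1 (h2 ▸ hpsd)
      apply hρ0
      rw [← hp, h3, h4]
      exact hzero
  have h0 : ‖AF M F (t0, v0)‖ ≤ ‖BF M F (t0, v0)‖ := by
    refine FatP_le (norm_nonneg _) ?_
    rw [← pf_fh, hp]
    exact hle
  have key := cone_pos (AF M F) (BF M F) hcone ht0 hpsd h0
  obtain ⟨⟨t, v⟩, hq⟩ := fh_surj hP hF3 hdet hξ hPξ
  have htr : (h2 ((t, v) : ℝ × E3)).trace = 0 := by
    rw [← hξt, ← hq]
    unfold fh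
    rw [Matrix.trace_mul_comm, ← Matrix.mul_assoc, hF1, Matrix.one_mul]
  have ht : t = 0 := by
    rw [h2_trace] at htr
    have h1 : ((2 * t : ℝ) : ℂ) = 0 := by
      rw [← htr]
    have h2 : 2 * t = 0 := by exact_mod_cast h1
    linarith
  have hv : v ≠ 0 := by
    intro h1
    apply hξ0
    rw [← hq, ht, h1]
    exact hzero
  have h5 := key v hv
  rw [← hq, ht, pf_fh]
  have h6 : ‖BF M F (0, v)‖ ^ 2 < ‖AF M F (0, v)‖ ^ 2 :=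
    pow_lt_pow_left₀ h5 (norm_nonneg _) two_ne_zero
  linarith

theorem fat_of_inner {P : Mat K} (hP : IsProj P 2) {M : Fin 4 → Fin 4 → Mat K} (hM : HermAlt M)
    (h : ∀ Q ∈ Gr P 1, pf (arr M Q) ≠ 0) {ρ : Mat K} (hρ : Psd ρ) (hρ0 : ρ ≠ 0)
    (hPρ : P * ρ = ρ) {Q : Mat K} (hQ : Q ∈ Gr P 1) (hle : pf (arr M ρ) * pf (arr M Q) ≤ 0)
    {ξ : Mat K} (hξ : ξᴴ = ξ) (hPξ : P * ξ = ξ) (hξt : ξ.trace = 0) (hξ0 : ξ ≠ 0) :
    pf (arr M ξ) ≠ 0 := by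
  rcases lt_or_gt_of_ne (h Q hQ) with hneg | hpos
  · have h1 : ∀ Q' ∈ Gr P 1, 0 < pf (arr (sw M) Q') := by
      intro Q' hQ'
      have h2 := pf_sign h hQ' hQ
      rw [pf_sw hM]
      nlinarith
    have h3 : pf (arr (sw M) ρ) ≤ 0 := by
      rw [pf_sw hM]
      nlinarith
    have h4 := FatP_pos hP h1 hρ hρ0 hPρ h3 hξ hPξ hξt hξ0
    rw [pf_sw hM] at h4
    intro h5
    rw [h5] at h4
    simp at h4
  · have h1 : ∀ Q' ∈ Gr P 1, 0 < pf (arr M Q') := by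
      intro Q' hQ'
      have h2 := pf_sign h hQ' hQ
      exact (pos_iff_pos_of_mul_pos h2).2 hpos
    have h3 : pf (arr M ρ) ≤ 0 := by
      by_contra h4
      push Not at h4
      have h5 := mul_pos h4 hpos
      linarith
    exact (FatP_pos hP h1 hρ hρ0 hPρ h3 hξ hPξ hξt hξ0).ne'

/-- the normalised case: `ρ = P` -/
theorem fat_of_degenerate {P : Mat K} (hP : IsProj P 2) {M : Fin 4 → Fin 4 → Mat K}
    (hM : HermAlt M) (h : ∀ Q ∈ Gr P 1, pf (arr M Q) ≠ 0) (hPf : pf (arr M P) = 0)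
    {ξ : Mat K} (hξ : ξᴴ = ξ) (hPξ : P * ξ = ξ) (hξt : ξ.trace = 0) (hξ0 : ξ ≠ 0) :
    pf (arr M ξ) ≠ 0 := by
  obtain ⟨F, hF1, hF2, hF3⟩ := exists_frame hP.mem_Gr
  have hdet : (Fᴴ * F).det ≠ 0 := by
    rw [hF1, Matrix.det_one]
    exact one_ne_zero
  have hone : fh F ((1, 0) : ℝ × E3) = P := by
    have h1 : h2 ((1, 0) : ℝ × E3) = 1 := by
      ext i j
      fin_cases i <;> fin_cases j <;> simp [h2]
    unfold fh
    rw [h1, Matrix.mul_one, hF2]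
  have hpsd : Psd P := by
    rw [← hone]
    refine (fh_psd (p := ((1, 0) : ℝ × E3)) hdet).2 ?_
    simp
  have hP0 : P ≠ 0 := by
    intro h1
    have h3 := hP.trace
    rw [h1, Matrix.trace_zero] at h3
    norm_num at h3
  obtain ⟨c, hc, Q, hQ, _⟩ := fh_pure hF3 hdet
    (p := ((1, EuclideanSpace.single 0 1) : ℝ × E3)) one_pos (by simp)
  refine fat_of_inner hP hM h hpsd hP0 hP.idem hQ ?_ hξ hPξ hξt hξ0
  rw [hPf, zero_mul]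

end CF42
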