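import Pool.Agent.W_9986fc_h42.HeA
import Pool.Agent.W_9986fc_h42.Bas
import Pool.Agent.W_9986fc_h42.FrA
import Pool.Agent.W_9986fc_h42.FrB

/-!
# Hermitian matrices below a projection of rank two

`F` is a `K × 2` matrix with `P F = F`, `det(Fᴴ F) ≠ 0`; `fh F p = F (h2 p) Fᴴ`.
* `eq_proj`: `P = F (Fᴴ F)⁻¹ Fᴴ` (both are orthogonal projections of rank 2, `P` fixes `F`, so the
  difference `P - F G⁻¹ Fᴴ` is an orthogonal projection of trace `0`, hence zero: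
  `tr(Dᴴ D) = tr D = 0`).
* `fh_surj`: `ρ = P ρ P = F (G⁻¹ Fᴴ ρ F G⁻¹) Fᴴ` and `h2_surj`.
* `fh_psd`: `F Z Fᴴ` positive semidefinite iff `Z` is (`Z = G⁻¹ Fᴴ (F Z Fᴴ) F G⁻¹`).
* `fh_pure`: with `h2_pure`, `fh F p = (F u)(F u)ᴴ = c • Q`, `c = tr((F u)ᴴ (F u)) > 0`.
* `fh_of_gr`: `Q = f fᴴ` (`exists_frame`, `k = 1`), `f = F (G⁻¹ Fᴴ f)`, `u = G⁻¹ Fᴴ f ≠ 0`,
  `h2_of_pure`.
-/

open Matrix

namespace CF42

variable {K : ℕ}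

theorem FhA_inv_herm (F : Matrix (Fin K) (Fin 2) ℂ) : ((Fᴴ * F)⁻¹)ᴴ = (Fᴴ * F)⁻¹ := by
  rw [Matrix.conjTranspose_nonsing_inv, Matrix.conjTranspose_mul, Matrix.conjTranspose_conjTranspose]

theorem FhA_psd_conj {m n : ℕ} (A : Matrix (Fin m) (Fin n) ℂ) {ρ : Matrix (Fin n) (Fin n) ℂ}
    (h : Psd ρ) : Psd (A * ρ * Aᴴ) := by
  refine ⟨?_, fun x => ?_⟩
  · rw [Matrix.conjTranspose_mul, Matrix.conjTranspose_mul, Matrix.conjTranspose_conjTranspose,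
      h.1, Matrix.mul_assoc]
  · have h2 := h.2 (Aᴴ *ᵥ x)
    have h3 : star x ⬝ᵥ (A * ρ * Aᴴ) *ᵥ x = star (Aᴴ *ᵥ x) ⬝ᵥ ρ *ᵥ (Aᴴ *ᵥ x) := by
      rw [Matrix.star_mulVec, Matrix.conjTranspose_conjTranspose, ← Matrix.mulVec_mulVec,
        ← Matrix.mulVec_mulVec, Matrix.dotProduct_mulVec]
    rw [h3]
    exact h2

open scoped ComplexOrder in
theorem FhA_zero {D : Mat K} (h : (Dᴴ * D).trace = 0) : D = 0 :=
  Matrix.trace_conjTranspose_mul_self_eq_zero_iff.1 h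

theorem eq_proj {P : Mat K} (hP : IsProj P 2) {F : Matrix (Fin K) (Fin 2) ℂ} (hPF : P * F = F)
    (hdet : (Fᴴ * F).det ≠ 0) : P = F * (Fᴴ * F)⁻¹ * Fᴴ := by
  obtain ⟨h1, h2, h3, h4⟩ := frame_mem (k := 2) hPF hdet
  set R : Mat K := F * (Fᴴ * F)⁻¹ * Fᴴ with hR
  have h5 : R * P = R := by
    have := congrArg Matrix.conjTranspose h4
    rwa [Matrix.conjTranspose_mul, h1, hP.herm] at this
  have h6 : (P - R)ᴴ * (P - R) = P - R := by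
    rw [Matrix.conjTranspose_sub, hP.herm, h1, Matrix.sub_mul, Matrix.mul_sub, Matrix.mul_sub,
      hP.idem, h4, h5, h2, sub_self, sub_zero]
  have h7 : ((P - R)ᴴ * (P - R)).trace = 0 := by
    rw [h6, Matrix.trace_sub, hP.trace, h3]
    simp
  exact sub_eq_zero.1 (FhA_zero h7)

theorem fh_add (F : Matrix (Fin K) (Fin 2) ℂ) (p q : ℝ × E3) : fh F (p + q) = fh F p + fh F q := by
  simp only [fh, h2_add, Matrix.mul_add, Matrix.add_mul]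

theorem fh_smul (F : Matrix (Fin K) (Fin 2) ℂ) (c : ℝ) (p : ℝ × E3) :
    fh F (c • p) = (c : ℂ) • fh F p := by
  simp only [fh, h2_smul, Matrix.mul_smul, Matrix.smul_mul]

theorem fh_surj {P : Mat K} (hP : IsProj P 2) {F : Matrix (Fin K) (Fin 2) ℂ} (hPF : P * F = F)
    (hdet : (Fᴴ * F).det ≠ 0) {ρ : Mat K} (hρ : ρᴴ = ρ) (hPρ : P * ρ = ρ) : ∃ p, fh F p = ρ := by
  have h1 := eq_proj hP hPF hdet
  have h2 : ρ * P = ρ := by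
    have := congrArg Matrix.conjTranspose hPρ
    rwa [Matrix.conjTranspose_mul, hρ, hP.herm] at this
  have h3 : ((Fᴴ * F)⁻¹ * (Fᴴ * ρ * F) * (Fᴴ * F)⁻¹)ᴴ =
      (Fᴴ * F)⁻¹ * (Fᴴ * ρ * F) * (Fᴴ * F)⁻¹ := by
    simp only [Matrix.conjTranspose_mul, FhA_inv_herm, hρ, Matrix.conjTranspose_conjTranspose,
      Matrix.mul_assoc]
  obtain ⟨p, hp⟩ := h2_surj h3
  refine ⟨p, ?_⟩
  have h4 : P * ρ * P = ρ := by rw [hPρ, h2]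
  calc fh F p = F * ((Fᴴ * F)⁻¹ * (Fᴴ * ρ * F) * (Fᴴ * F)⁻¹) * Fᴴ := by rw [fh, hp]
    _ = (F * (Fᴴ * F)⁻¹ * Fᴴ) * ρ * (F * (Fᴴ * F)⁻¹ * Fᴴ) := by simp only [Matrix.mul_assoc]
    _ = P * ρ * P := by rw [← h1]
    _ = ρ := h4

theorem fh_psd {F : Matrix (Fin K) (Fin 2) ℂ} (hdet : (Fᴴ * F).det ≠ 0) {p : ℝ × E3} :
    Psd (fh F p) ↔ ‖p.2‖ ≤ p.1 := by
  rw [← h2_psd]
  constructor
  · intro h
    have hu : IsUnit (Fᴴ * F).det := isUnit_iff_ne_zero.2 hdet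
    have h1 := FhA_psd_conj ((Fᴴ * F)⁻¹ * Fᴴ) h
    have h2 : (Fᴴ * F)⁻¹ * Fᴴ * fh F p * ((Fᴴ * F)⁻¹ * Fᴴ)ᴴ = h2 p := by
      rw [Matrix.conjTranspose_mul, Matrix.conjTranspose_conjTranspose, FhA_inv_herm, fh]
      calc (Fᴴ * F)⁻¹ * Fᴴ * (F * h2 p * Fᴴ) * (F * (Fᴴ * F)⁻¹)
          = ((Fᴴ * F)⁻¹ * (Fᴴ * F)) * h2 p * ((Fᴴ * F) * (Fᴴ * F)⁻¹) := by
            simp only [Matrix.mul_assoc]
        _ = h2 p := by
            rw [Matrix.nonsing_inv_mul _ hu, Matrix.mul_nonsing_inv _ hu, Matrix.one_mul,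
              Matrix.mul_one]
    rwa [h2] at h1
  · intro h
    exact FhA_psd_conj F h

end CF42
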