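import Pool.Agent.W_9986fc_h42.FhA

/-!
# Hermitian matrices below a projection of rank two, II

* `fh_pure`: with `h2_pure`, `fh F p = (F u)(F u)ᴴ = c • Q`, `c = tr((F u)ᴴ (F u)) > 0`.
* `fh_of_gr`: `Q = f fᴴ` (`exists_frame`, `k = 1`), `f = F (G⁻¹ Fᴴ f)` (`eq_proj`),
  `u = G⁻¹ Fᴴ f ≠ 0`, `h2_of_pure`.
* `exists_lin`: `p ↦ av (arr M (fh F p))`, `p ↦ bv (arr M (fh F p))` are linear and
  `pf (arr M (fh F p)) = ‖A p‖² - ‖B p‖²` (`pf_eq`).
-/

open Matrix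

namespace CF42

variable {K : ℕ}

theorem FhB_one (f : Matrix (Fin K) (Fin 1) ℂ) :
    fᴴ * f = ((∑ i, Complex.normSq (f i 0) : ℝ) : ℂ) • (1 : Matrix (Fin 1) (Fin 1) ℂ) := by
  ext a b
  have ha : a = 0 := Subsingleton.elim _ _
  have hb : b = 0 := Subsingleton.elim _ _
  subst ha hb
  rw [Matrix.mul_apply, Matrix.smul_apply, Matrix.one_apply_eq, smul_eq_mul, mul_one]
  push_cast
  refine Finset.sum_congr rfl fun i _ => ?_
  rw [Matrix.conjTranspose_apply]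
  have := Complex.normSq_eq_conj_mul_self (z := f i 0)
  rw [this]; rfl

theorem FhB_pos {f : Matrix (Fin K) (Fin 1) ℂ} (hf : f ≠ 0) :
    0 < ∑ i, Complex.normSq (f i 0) := by
  by_contra hcon
  apply hf
  have h0 : ∑ i, Complex.normSq (f i 0) = 0 :=
    le_antisymm (not_lt.mp hcon) (Finset.sum_nonneg fun i _ => Complex.normSq_nonneg _)
  rw [Finset.sum_eq_zero_iff_of_nonneg (fun i _ => Complex.normSq_nonneg _)] at h0
  ext i j
  have hj : j = 0 := Subsingleton.elim _ _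
  subst hj
  exact Complex.normSq_eq_zero.mp (h0 i (Finset.mem_univ i))

theorem fh_pure {P : Mat K} {F : Matrix (Fin K) (Fin 2) ℂ} (hPF : P * F = F)
    (hdet : (Fᴴ * F).det ≠ 0) {p : ℝ × E3} (h0 : 0 < p.1) (h : ‖p.2‖ = p.1) :
    ∃ c : ℝ, 0 < c ∧ ∃ Q ∈ Gr P 1, fh F p = (c : ℂ) • Q := by
  obtain ⟨u, hu, hpu⟩ := h2_pure h0 h
  have hf : F * u ≠ 0 := by
    intro hz
    apply hu
    have h1 : (Fᴴ * F) * u = 0 := by rw [Matrix.mul_assoc, hz, Matrix.mul_zero]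
    have h2 : (Fᴴ * F)⁻¹ * ((Fᴴ * F) * u) = u := by
      rw [← Matrix.mul_assoc, Matrix.nonsing_inv_mul _ (Ne.isUnit hdet), Matrix.one_mul]
    rw [← h2, h1, Matrix.mul_zero]
  have hc := FhB_pos hf
  have h1 := FhB_one (F * u)
  set f := F * u with hfdef
  set c := ∑ i, Complex.normSq (f i 0) with hcdef
  have hcc : (c : ℂ) ≠ 0 := by exact_mod_cast hc.ne'
  have hPf : P * f = f := by rw [hfdef, ← Matrix.mul_assoc, hPF]
  have hff : fh F p = f * fᴴ := by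
    unfold fh
    rw [hpu, hfdef, Matrix.conjTranspose_mul]
    simp only [Matrix.mul_assoc]
  refine ⟨c, hc, (c : ℂ)⁻¹ • (f * fᴴ), ⟨?_, ?_, ?_, ?_⟩, ?_⟩
  · rw [Matrix.conjTranspose_smul, Matrix.conjTranspose_mul, Matrix.conjTranspose_conjTranspose]
    congr 1
    rw [star_inv₀]
    congr 1
    exact Complex.conj_ofReal c
  · rw [Matrix.smul_mul, Matrix.mul_smul, Matrix.mul_assoc f, ← Matrix.mul_assoc fᴴ f, h1,
      Matrix.smul_mul, Matrix.one_mul, Matrix.mul_smul, smul_smul, smul_smul]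
    congr 1
    field_simp
  · rw [Matrix.trace_smul, Matrix.trace_mul_comm, h1, Matrix.trace_smul, Matrix.trace_one]
    simp [hcc]
  · rw [Matrix.mul_smul, ← Matrix.mul_assoc, hPf]
  · rw [hff, smul_smul, mul_inv_cancel₀ hcc, one_smul]

theorem fh_of_gr {P : Mat K} (hP : IsProj P 2) {F : Matrix (Fin K) (Fin 2) ℂ} (hPF : P * F = F)
    (hdet : (Fᴴ * F).det ≠ 0) {Q : Mat K} (hQ : Q ∈ Gr P 1) :
    ∃ p : ℝ × E3, 0 < p.1 ∧ ‖p.2‖ = p.1 ∧ fh F p = Q := by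
  obtain ⟨f, hf1, hfQ, hPf⟩ := exists_frame hQ
  have hPe := eq_proj hP hPF hdet
  have hfe : F * ((Fᴴ * F)⁻¹ * (Fᴴ * f)) = f := by
    calc F * ((Fᴴ * F)⁻¹ * (Fᴴ * f)) = (F * (Fᴴ * F)⁻¹ * Fᴴ) * f := by
          simp only [Matrix.mul_assoc]
      _ = P * f := by rw [← hPe]
      _ = f := hPf
  have hu : (Fᴴ * F)⁻¹ * (Fᴴ * f) ≠ 0 := by
    intro hz
    rw [hz, Matrix.mul_zero] at hfe
    rw [← hfe, Matrix.mul_zero] at hf1
    exact zero_ne_one hf1
  obtain ⟨p, h0, h1, h2⟩ := h2_of_pure hu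
  refine ⟨p, h0, h1, ?_⟩
  unfold fh
  rw [h2, ← hfQ]
  calc F * ((Fᴴ * F)⁻¹ * (Fᴴ * f) * ((Fᴴ * F)⁻¹ * (Fᴴ * f))ᴴ) * Fᴴ
      = (F * ((Fᴴ * F)⁻¹ * (Fᴴ * f))) * (F * ((Fᴴ * F)⁻¹ * (Fᴴ * f)))ᴴ := by
        rw [Matrix.conjTranspose_mul F ((Fᴴ * F)⁻¹ * (Fᴴ * f))]
        simp only [Matrix.mul_assoc]
    _ = f * fᴴ := by rw [hfe]

theorem FhB_arr_add (M : Fin 4 → Fin 4 → Mat K) (Q Q' : Mat K) (i j : Fin 4) :
    arr M (Q + Q') i j = arr M Q i j + arr M Q' i j := rt_add _ _ _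

theorem FhB_arr_smul (M : Fin 4 → Fin 4 → Mat K) (c : ℝ) (Q : Mat K) :
    arr M ((c : ℂ) • Q) = fun i j => c * arr M Q i j := by
  funext i j
  exact rt_smul _ _ _

theorem FhB_av_smul (w : Fin 4 → Fin 4 → ℝ) (c : ℝ) :
    av (fun i j => c * w i j) = c • av w := by
  ext i
  unfold av
  fin_cases i <;> simp <;> ring

theorem FhB_bv_smul (w : Fin 4 → Fin 4 → ℝ) (c : ℝ) :
    bv (fun i j => c * w i j) = c • bv w := by
  ext i
  unfold bv
  fin_cases i <;> simp <;> ring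

/-- the linear maps `p ↦ av (arr M (fh F p))`, `p ↦ bv (arr M (fh F p))` -/
noncomputable def AF (M : Fin 4 → Fin 4 → Mat K) (F : Matrix (Fin K) (Fin 2) ℂ) :
    (ℝ × E3) →ₗ[ℝ] E3 where
  toFun p := av (arr M (fh F p))
  map_add' := by
    intro p q
    rw [fh_add]
    ext i
    unfold av
    fin_cases i <;> simp [FhB_arr_add] <;> ring
  map_smul' := by
    intro c p
    rw [fh_smul, FhB_arr_smul, FhB_av_smul]
    rfl

/-- the linear map `p ↦ bv (arr M (fh F p))` -/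
noncomputable def BF (M : Fin 4 → Fin 4 → Mat K) (F : Matrix (Fin K) (Fin 2) ℂ) :
    (ℝ × E3) →ₗ[ℝ] E3 where
  toFun p := bv (arr M (fh F p))
  map_add' := by
    intro p q
    rw [fh_add]
    ext i
    unfold bv
    fin_cases i <;> simp [FhB_arr_add] <;> ring
  map_smul' := by
    intro c p
    rw [fh_smul, FhB_arr_smul, FhB_bv_smul]
    rfl

theorem pf_fh (M : Fin 4 → Fin 4 → Mat K) (F : Matrix (Fin K) (Fin 2) ℂ) (p : ℝ × E3) :
    pf (arr M (fh F p)) = ‖AF M F p‖ ^ 2 - ‖BF M F p‖ ^ 2 :=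
  pf_eq _

theorem FhB_fh_continuous {Y : Type*} [TopologicalSpace Y]
    {F : Y → Matrix (Fin K) (Fin 2) ℂ}
    (hF : Continuous F) : Continuous fun p : Y × (ℝ × E3) => fh (F p.1) p.2 := by
  unfold fh
  have h1 : Continuous fun p : Y × (ℝ × E3) => F p.1 := hF.comp continuous_fst
  have h2 : Continuous fun p : Y × (ℝ × E3) => h2 p.2 := h2_continuous.comp continuous_snd
  exact (h1.matrix_mul h2).matrix_mul h1.matrix_conjTranspose

theorem FhB_arr_continuous {Y : Type*} [TopologicalSpace Y] {M : Y → Fin 4 → Fin 4 → Mat K}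
    {F : Y → Matrix (Fin K) (Fin 2) ℂ} (hM : ∀ i j, Continuous fun y => M y i j)
    (hF : Continuous F) (i j : Fin 4) :
    Continuous fun p : Y × (ℝ × E3) => arr (M p.1) (fh (F p.1) p.2) i j :=
  rt_continuous ((hM i j).comp continuous_fst) (FhB_fh_continuous hF)

theorem AF_continuous {Y : Type*} [TopologicalSpace Y] {M : Y → Fin 4 → Fin 4 → Mat K}
    {F : Y → Matrix (Fin K) (Fin 2) ℂ} (hM : ∀ i j, Continuous fun y => M y i j)
    (hF : Continuous F) : Continuous fun p : Y × (ℝ × E3) => AF (M p.1) (F p.1) p.2 := by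
  have h := FhB_arr_continuous hM hF
  refine (PiLp.continuous_toLp 2 (fun _ : Fin 3 => ℝ)).comp (continuous_pi fun i => ?_)
  fin_cases i
  · exact ((h 0 1).add (h 2 3)).div_const 2
  · exact ((h 0 2).sub (h 1 3)).div_const 2
  · exact ((h 0 3).add (h 1 2)).div_const 2

theorem BF_continuous {Y : Type*} [TopologicalSpace Y] {M : Y → Fin 4 → Fin 4 → Mat K}
    {F : Y → Matrix (Fin K) (Fin 2) ℂ} (hM : ∀ i j, Continuous fun y => M y i j)
    (hF : Continuous F) : Continuous fun p : Y × (ℝ × E3) => BF (M p.1) (F p.1) p.2 := by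
  have h := FhB_arr_continuous hM hF
  refine (PiLp.continuous_toLp 2 (fun _ : Fin 3 => ℝ)).comp (continuous_pi fun i => ?_)
  fin_cases i
  · exact ((h 0 1).sub (h 2 3)).div_const 2
  · exact ((h 0 2).add (h 1 3)).div_const 2
  · exact ((h 0 3).sub (h 1 2)).div_const 2

end CF42
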