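import Pool.Agent.W_9986fc_h42.Defs

/-!
# Hermitian `2 × 2` matrices as `ℝ × ℝ³`

`h2 (t,v)` has determinant `t² - ‖v‖²` and trace `2t`.
* `h2_psd`: positive semidefinite iff `‖v‖ ≤ t`: eigenvalues `t ± ‖v‖`; or: for `x : Fin 2 → ℂ`,
  `xᴴ h2 x = t |x|² + v·σ(x)` with `|σ(x)| = |x|²`.
* `h2_pure`: for `t = ‖v‖ > 0` the matrix has rank one: if `t + z > 0` take
  `u = (t+z, x+iy)/√(t+z)`, otherwise `x = y = 0`, `z = -t`, `u = (0, √(2t))`.
* `h2_surj`: entries.
-/

open Matrix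

namespace CF42

theorem hea_00 (p : ℝ × E3) : h2 p 0 0 = ((p.1 + p.2 2 : ℝ) : ℂ) := rfl

theorem hea_01 (p : ℝ × E3) : h2 p 0 1 = (p.2 0 : ℂ) - Complex.I * (p.2 1 : ℂ) := rfl

theorem hea_10 (p : ℝ × E3) : h2 p 1 0 = (p.2 0 : ℂ) + Complex.I * (p.2 1 : ℂ) := rfl

theorem hea_11 (p : ℝ × E3) : h2 p 1 1 = ((p.1 - p.2 2 : ℝ) : ℂ) := rfl

theorem hea_ext {A B : Matrix (Fin 2) (Fin 2) ℂ} (h00 : A 0 0 = B 0 0) (h01 : A 0 1 = B 0 1)
    (h10 : A 1 0 = B 1 0) (h11 : A 1 1 = B 1 1) : A = B := by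
  ext i j
  fin_cases i <;> fin_cases j <;> assumption

theorem h2_add (p q : ℝ × E3) : h2 (p + q) = h2 p + h2 q := by
  apply hea_ext
  · rw [Matrix.add_apply, hea_00, hea_00, hea_00]
    simp
    ring
  · rw [Matrix.add_apply, hea_01, hea_01, hea_01]
    simp
    ring
  · rw [Matrix.add_apply, hea_10, hea_10, hea_10]
    simp
    ring
  · rw [Matrix.add_apply, hea_11, hea_11, hea_11]
    simp
    ring

theorem h2_smul (c : ℝ) (p : ℝ × E3) : h2 (c • p) = (c : ℂ) • h2 p := by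
  apply hea_ext
  · rw [Matrix.smul_apply, hea_00, hea_00]
    simp
    ring
  · rw [Matrix.smul_apply, hea_01, hea_01]
    simp
    ring
  · rw [Matrix.smul_apply, hea_10, hea_10]
    simp
    ring
  · rw [Matrix.smul_apply, hea_11, hea_11]
    simp
    ring

theorem h2_herm (p : ℝ × E3) : (h2 p)ᴴ = h2 p := by
  apply hea_ext
  · rw [Matrix.conjTranspose_apply, hea_00]
    simp
  · rw [Matrix.conjTranspose_apply, hea_01, hea_10]
    simp
    ring
  · rw [Matrix.conjTranspose_apply, hea_01, hea_10]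
    simp
  · rw [Matrix.conjTranspose_apply, hea_11]
    simp

theorem h2_trace (p : ℝ × E3) : (h2 p).trace = ((2 * p.1 : ℝ) : ℂ) := by
  rw [Matrix.trace_fin_two, hea_00, hea_11, ← Complex.ofReal_add]
  congr 1
  ring

theorem h2_surj {Z : Matrix (Fin 2) (Fin 2) ℂ} (hZ : Zᴴ = Z) : ∃ p, h2 p = Z := by
  have h : ∀ i j, starRingEnd ℂ (Z j i) = Z i j := fun i j => by
    have := congrFun (congrFun hZ i) j
    rw [Matrix.conjTranspose_apply] at this
    exact this
  have h00 := h 0 0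
  have h11 := h 1 1
  have h01 := h 0 1
  rw [Complex.ext_iff] at h00 h11 h01
  simp only [Complex.conj_re, Complex.conj_im] at h00 h11 h01
  refine ⟨(((Z 0 0).re + (Z 1 1).re) / 2,
    WithLp.toLp 2 ![(Z 1 0).re, (Z 1 0).im, ((Z 0 0).re - (Z 1 1).re) / 2]), ?_⟩
  apply hea_ext
  · rw [hea_00]
    apply Complex.ext
    · simp
      ring
    · simp
      linarith [h00.2]
  · rw [hea_01]
    apply Complex.ext
    · simp [h01.1]
    · simp [h01.2]
  · rw [hea_10]
    apply Complex.ext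
    · simp
    · simp
  · rw [hea_11]
    apply Complex.ext
    · simp
      ring
    · simp
      linarith [h11.2]

theorem h2_eq_zero {p : ℝ × E3} (h : h2 p = 0) : p = 0 := by
  have h00 : h2 p 0 0 = 0 := by rw [h]; rfl
  have h10 : h2 p 1 0 = 0 := by rw [h]; rfl
  have h11 : h2 p 1 1 = 0 := by rw [h]; rfl
  rw [hea_00] at h00
  rw [hea_10] at h10
  rw [hea_11] at h11
  rw [Complex.ofReal_eq_zero] at h00 h11
  rw [Complex.ext_iff] at h10
  simp at h10
  apply Prod.ext
  · change p.1 = 0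
    linarith
  · ext i
    fin_cases i
    · exact h10.1
    · exact h10.2
    · change p.2 2 = 0
      linarith

theorem h2_continuous : Continuous h2 := by
  have hc : ∀ i : Fin 3, Continuous fun p : ℝ × E3 => p.2 i := fun i =>
    (EuclideanSpace.proj (𝕜 := ℝ) i).continuous.comp continuous_snd
  refine continuous_matrix fun i j => ?_
  fin_cases i <;> fin_cases j
  · exact Complex.continuous_ofReal.comp (continuous_fst.add (hc 2))
  · exact (Complex.continuous_ofReal.comp (hc 0)).sub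
      (continuous_const.mul (Complex.continuous_ofReal.comp (hc 1)))
  · exact (Complex.continuous_ofReal.comp (hc 0)).add
      (continuous_const.mul (Complex.continuous_ofReal.comp (hc 1)))
  · exact Complex.continuous_ofReal.comp (continuous_fst.sub (hc 2))

theorem hea_norm (v : E3) : ‖v‖ ^ 2 = v 0 ^ 2 + v 1 ^ 2 + v 2 ^ 2 := by
  rw [EuclideanSpace.norm_sq_eq, Fin.sum_univ_three]
  simp

/-- the quadratic form -/
theorem hea_form (p : ℝ × E3) (x : Fin 2 → ℂ) : (star x ⬝ᵥ h2 p *ᵥ x).re =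
    (p.1 + p.2 2) * ((x 0).re ^ 2 + (x 0).im ^ 2) + (p.1 - p.2 2) * ((x 1).re ^ 2 + (x 1).im ^ 2)
      + 2 * p.2 0 * ((x 0).re * (x 1).re + (x 0).im * (x 1).im)
      + 2 * p.2 1 * ((x 0).re * (x 1).im - (x 0).im * (x 1).re) := by
  rw [dotProduct, Fin.sum_univ_two, Matrix.mulVec, Matrix.mulVec, dotProduct, dotProduct,
    Fin.sum_univ_two, Fin.sum_univ_two, hea_00, hea_01, hea_10, hea_11]
  simp
  ring

theorem h2_psd {p : ℝ × E3} : Psd (h2 p) ↔ ‖p.2‖ ≤ p.1 := by
  obtain ⟨t, v⟩ := p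
  have hn := hea_norm v
  have hn0 := norm_nonneg v
  constructor
  · rintro ⟨-, h⟩
    change ‖v‖ ≤ t
    set r := ‖v‖ with hr
    by_cases hrz : r + v 2 = 0
    · have h1 := h ![1, 0]
      rw [hea_form] at h1
      simp at h1
      linarith
    · have hz : 0 < r + v 2 := by
        have h2 : v 2 ^ 2 ≤ r ^ 2 := by nlinarith [sq_nonneg (v 0), sq_nonneg (v 1)]
        have h3 := abs_le_of_sq_le_sq' h2 hn0
        exact lt_of_le_of_ne (by linarith [h3.1]) (Ne.symm hrz)
      have h1 := h ![-(v 0 : ℂ) + Complex.I * (v 1 : ℂ), ((v 2 + r : ℝ) : ℂ)]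
      rw [hea_form] at h1
      simp at h1
      have h4 : 0 ≤ 2 * r * (r + v 2) * (t - r) := by
        have h5 : 2 * r * (r + v 2) * (t - r) =
            (t + v 2) * (v 0 ^ 2 + v 1 ^ 2) + (t - v 2) * (v 2 + r) ^ 2
              - 2 * v 0 * (v 0 * (v 2 + r)) - 2 * v 1 * (v 1 * (v 2 + r)) := by
          have h6 : v 0 ^ 2 + v 1 ^ 2 = r ^ 2 - v 2 ^ 2 := by linarith
          have h7 : 2 * v 0 * (v 0 * (v 2 + r)) + 2 * v 1 * (v 1 * (v 2 + r)) =
            2 * (v 0 ^ 2 + v 1 ^ 2) * (v 2 + r) := by ring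
          rw [sub_sub, h7, h6]
          ring
        rw [h5]
        linarith
      by_contra hlt
      push Not at hlt
      rcases eq_or_lt_of_le hn0 with h0 | h0
      · -- `r = 0`
        have hr0 : r = 0 := h0.symm
        rw [hr0] at hz hn
        nlinarith [sq_nonneg (v 0), sq_nonneg (v 1), sq_nonneg (v 2)]
      · have : 2 * r * (r + v 2) * (t - r) < 0 := by
          apply mul_neg_of_pos_of_neg
          · positivity
          · linarith
        linarith
  · intro h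
    change ‖v‖ ≤ t at h
    refine ⟨h2_herm _, fun x => ?_⟩
    rw [hea_form]
    change 0 ≤ (t + v 2) * ((x 0).re ^ 2 + (x 0).im ^ 2)
      + (t - v 2) * ((x 1).re ^ 2 + (x 1).im ^ 2)
      + 2 * v 0 * ((x 0).re * (x 1).re + (x 0).im * (x 1).im)
      + 2 * v 1 * ((x 0).re * (x 1).im - (x 0).im * (x 1).re)
    set a := (x 0).re
    set b := (x 0).im
    set c := (x 1).re
    set d := (x 1).im
    set S := a ^ 2 + b ^ 2 + c ^ 2 + d ^ 2 with hS
    have hS0 : 0 ≤ S := by positivity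
    set s0 := 2 * (a * c + b * d)
    set s1 := 2 * (a * d - b * c)
    set s2 := a ^ 2 + b ^ 2 - c ^ 2 - d ^ 2
    have hs : s0 ^ 2 + s1 ^ 2 + s2 ^ 2 = S ^ 2 := by
      simp only [s0, s1, s2, S]
      ring
    have hcs : (v 0 * s0 + v 1 * s1 + v 2 * s2) ^ 2 ≤ (t * S) ^ 2 := by
      have h1 : (v 0 * s0 + v 1 * s1 + v 2 * s2) ^ 2 ≤
          (v 0 ^ 2 + v 1 ^ 2 + v 2 ^ 2) * (s0 ^ 2 + s1 ^ 2 + s2 ^ 2) := by
        nlinarith [sq_nonneg (v 0 * s1 - v 1 * s0), sq_nonneg (v 0 * s2 - v 2 * s0),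
          sq_nonneg (v 1 * s2 - v 2 * s1)]
      rw [hs, ← hn] at h1
      have h2 : ‖v‖ ^ 2 * S ^ 2 ≤ t ^ 2 * S ^ 2 := by
        apply mul_le_mul_of_nonneg_right _ (sq_nonneg S)
        exact pow_le_pow_left₀ hn0 h 2
      calc _ ≤ _ := h1
        _ ≤ _ := h2
        _ = _ := by ring
    have ht : 0 ≤ t := hn0.trans h
    have h3 := (abs_le_of_sq_le_sq' hcs (mul_nonneg ht hS0)).1
    have h4 : (t + v 2) * (a ^ 2 + b ^ 2) + (t - v 2) * (c ^ 2 + d ^ 2)
      + 2 * v 0 * (a * c + b * d) + 2 * v 1 * (a * d - b * c) =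
        t * S + (v 0 * s0 + v 1 * s1 + v 2 * s2) := by
      simp only [s0, s1, s2, S]
      ring
    rw [h4]
    linarith

theorem hea_mul_apply (u : Matrix (Fin 2) (Fin 1) ℂ) (i j : Fin 2) :
    (u * uᴴ) i j = u i 0 * starRingEnd ℂ (u j 0) := by
  rw [Matrix.mul_apply]
  simp

/-- on the cone the matrix has rank one -/
theorem h2_pure {p : ℝ × E3} (h0 : 0 < p.1) (h : ‖p.2‖ = p.1) :
    ∃ u : Matrix (Fin 2) (Fin 1) ℂ, u ≠ 0 ∧ h2 p = u * uᴴ := by
  obtain ⟨t, v⟩ := p
  change 0 < t at h0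
  change ‖v‖ = t at h
  have hn := hea_norm v
  rw [h] at hn
  have hz : v 2 ^ 2 ≤ t ^ 2 := by nlinarith [sq_nonneg (v 0), sq_nonneg (v 1)]
  have hz2 := abs_le_of_sq_le_sq' hz h0.le
  rcases eq_or_lt_of_le (show 0 ≤ t + v 2 by linarith [hz2.1]) with hz3 | hz3
  · have hv2 : v 2 = - t := by linarith
    have hxy : v 0 ^ 2 + v 1 ^ 2 = 0 := by
      rw [hv2] at hn
      linarith
    have hx : v 0 = 0 := by
      have : v 0 ^ 2 = 0 := by nlinarith [sq_nonneg (v 0), sq_nonneg (v 1)]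
      exact pow_eq_zero_iff two_ne_zero |>.mp this
    have hy : v 1 = 0 := by
      have : v 1 ^ 2 = 0 := by nlinarith [sq_nonneg (v 0), sq_nonneg (v 1)]
      exact pow_eq_zero_iff two_ne_zero |>.mp this
    have hs : Real.sqrt (2 * t) * Real.sqrt (2 * t) = 2 * t := Real.mul_self_sqrt (by linarith)
    refine ⟨!![0; ((Real.sqrt (2 * t) : ℝ) : ℂ)], ?_, ?_⟩
    · intro h1
      have h2 := congrFun (congrFun h1 1) 0
      simp at h2
      have h3 : 0 < Real.sqrt t := Real.sqrt_pos.mpr h0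
      linarith
    · apply hea_ext
      · rw [hea_00, hea_mul_apply]
        simp [hv2]
      · rw [hea_01, hea_mul_apply]
        simp [hx, hy]
      · rw [hea_10, hea_mul_apply]
        simp [hx, hy]
      · rw [hea_11, hea_mul_apply]
        simp only [Matrix.of_apply, Matrix.cons_val', Matrix.cons_val_one, Matrix.cons_val_fin_one,
          Complex.conj_ofReal]
        rw [← Complex.ofReal_mul, hs, hv2]
        congr 1
        ring
  · set s := Real.sqrt (t + v 2) with hs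
    have hs0 : 0 < s := Real.sqrt_pos.mpr hz3
    have hss : s * s = t + v 2 := Real.mul_self_sqrt hz3.le
    refine ⟨!![(s : ℂ); ((v 0 : ℂ) + Complex.I * (v 1 : ℂ)) / (s : ℂ)], ?_, ?_⟩
    · intro h1
      have h2 := congrFun (congrFun h1 0) 0
      simp at h2
      linarith
    · have hsC : (s : ℂ) ≠ 0 := by
        rw [Ne, Complex.ofReal_eq_zero]
        exact hs0.ne'
      have hssC : (s : ℂ) * (s : ℂ) = (t : ℂ) + (v 2 : ℂ) := by
        rw [← Complex.ofReal_mul, hss, Complex.ofReal_add]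
      have e0 : (!![(s : ℂ); ((v 0 : ℂ) + Complex.I * (v 1 : ℂ)) / (s : ℂ)] :
          Matrix (Fin 2) (Fin 1) ℂ) 0 0 = s := rfl
      have e1 : (!![(s : ℂ); ((v 0 : ℂ) + Complex.I * (v 1 : ℂ)) / (s : ℂ)] :
          Matrix (Fin 2) (Fin 1) ℂ) 1 0 = ((v 0 : ℂ) + Complex.I * (v 1 : ℂ)) / (s : ℂ) := rfl
      apply hea_ext
      · rw [hea_00, hea_mul_apply, e0, Complex.conj_ofReal, hssC]
        simp
      · rw [hea_01, hea_mul_apply, e0, e1, map_div₀, Complex.conj_ofReal, map_add, map_mul,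
          Complex.conj_ofReal, Complex.conj_ofReal, Complex.conj_I]
        field_simp
        ring
      · rw [hea_10, hea_mul_apply, e0, e1, Complex.conj_ofReal]
        field_simp
      · rw [hea_11, hea_mul_apply, e1, map_div₀, Complex.conj_ofReal, map_add, map_mul,
          Complex.conj_ofReal, Complex.conj_ofReal, Complex.conj_I]
        rw [div_mul_div_comm, hssC, eq_div_iff (by rw [← hssC]; exact mul_ne_zero hsC hsC)]
        have h5 : ((t : ℂ)) ^ 2 = (v 0 : ℂ) ^ 2 + (v 1 : ℂ) ^ 2 + (v 2 : ℂ) ^ 2 := by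
          exact_mod_cast hn
        have h6 : Complex.I ^ 2 = -1 := Complex.I_sq
        change ((t - v 2 : ℝ) : ℂ) * _ = _
        rw [Complex.ofReal_sub]
        linear_combination h5 + (v 1 : ℂ) ^ 2 * h6

/-- rank one matrices are on the cone -/
theorem h2_of_pure {u : Matrix (Fin 2) (Fin 1) ℂ} (hu : u ≠ 0) :
    ∃ p : ℝ × E3, 0 < p.1 ∧ ‖p.2‖ = p.1 ∧ h2 p = u * uᴴ := by
  set a := (u 0 0).re with ha
  set b := (u 0 0).im with hb
  set c := (u 1 0).re with hc
  set d := (u 1 0).im with hd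
  have hpos : 0 < a ^ 2 + b ^ 2 + c ^ 2 + d ^ 2 := by
    by_contra hcon
    push Not at hcon
    have h1 : a = 0 := by
      have : a ^ 2 = 0 := by nlinarith [sq_nonneg a, sq_nonneg b, sq_nonneg c, sq_nonneg d]
      exact pow_eq_zero_iff two_ne_zero |>.mp this
    have h2 : b = 0 := by
      have : b ^ 2 = 0 := by nlinarith [sq_nonneg a, sq_nonneg b, sq_nonneg c, sq_nonneg d]
      exact pow_eq_zero_iff two_ne_zero |>.mp this
    have h3 : c = 0 := by
      have : c ^ 2 = 0 := by nlinarith [sq_nonneg a, sq_nonneg b, sq_nonneg c, sq_nonneg d]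
      exact pow_eq_zero_iff two_ne_zero |>.mp this
    have h4 : d = 0 := by
      have : d ^ 2 = 0 := by nlinarith [sq_nonneg a, sq_nonneg b, sq_nonneg c, sq_nonneg d]
      exact pow_eq_zero_iff two_ne_zero |>.mp this
    apply hu
    ext i j
    have hj : j = 0 := Subsingleton.elim _ _
    subst hj
    fin_cases i
    · exact Complex.ext h1 h2
    · exact Complex.ext h3 h4
  set v : E3 := WithLp.toLp 2 ![a * c + b * d, a * d - b * c, (a ^ 2 + b ^ 2 - c ^ 2 - d ^ 2) / 2]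
    with hv
  have e0 : v 0 = a * c + b * d := rfl
  have e1 : v 1 = a * d - b * c := rfl
  have e2 : v 2 = (a ^ 2 + b ^ 2 - c ^ 2 - d ^ 2) / 2 := rfl
  refine ⟨((a ^ 2 + b ^ 2 + c ^ 2 + d ^ 2) / 2, v), by simpa using hpos, ?_, ?_⟩
  · change ‖v‖ = (a ^ 2 + b ^ 2 + c ^ 2 + d ^ 2) / 2
    have h1 : ‖v‖ ^ 2 = ((a ^ 2 + b ^ 2 + c ^ 2 + d ^ 2) / 2) ^ 2 := by
      rw [hea_norm, e0, e1, e2]
      ring
    exact (pow_left_inj₀ (norm_nonneg _) (by positivity) two_ne_zero).mp h1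
  · apply hea_ext
    · rw [hea_00, hea_mul_apply]
      change (((a ^ 2 + b ^ 2 + c ^ 2 + d ^ 2) / 2 + v 2 : ℝ) : ℂ) = _
      rw [e2]
      apply Complex.ext
      · rw [Complex.ofReal_re, Complex.mul_re, Complex.conj_re, Complex.conj_im, ← ha, ← hb]
        ring
      · rw [Complex.ofReal_im, Complex.mul_im, Complex.conj_re, Complex.conj_im, ← ha, ← hb]
        ring
    · rw [hea_01, hea_mul_apply]
      change (v 0 : ℂ) - Complex.I * (v 1 : ℂ) = _
      rw [e0, e1]
      apply Complex.ext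
      · rw [Complex.mul_re, Complex.conj_re, Complex.conj_im, ← ha, ← hb, ← hc, ← hd]
        simp
      · rw [Complex.mul_im, Complex.conj_re, Complex.conj_im, ← ha, ← hb, ← hc, ← hd]
        simp
        ring
    · rw [hea_10, hea_mul_apply]
      change (v 0 : ℂ) + Complex.I * (v 1 : ℂ) = _
      rw [e0, e1]
      apply Complex.ext
      · rw [Complex.mul_re, Complex.conj_re, Complex.conj_im, ← ha, ← hb, ← hc, ← hd]
        simp
        ring
      · rw [Complex.mul_im, Complex.conj_re, Complex.conj_im, ← ha, ← hb, ← hc, ← hd]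
        simp
        ring
    · rw [hea_11, hea_mul_apply]
      change (((a ^ 2 + b ^ 2 + c ^ 2 + d ^ 2) / 2 - v 2 : ℝ) : ℂ) = _
      rw [e2]
      apply Complex.ext
      · rw [Complex.ofReal_re, Complex.mul_re, Complex.conj_re, Complex.conj_im, ← hc, ← hd]
        ring
      · rw [Complex.ofReal_im, Complex.mul_im, Complex.conj_re, Complex.conj_im, ← hc, ← hd]
        ring

end CF42
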