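import Pool.Agent.W_9986fc_h42.Defs
import Pool.Agent.W_9986fc_h13.Rigid

/-!
# Common zero of three traceless hermitian forms on `Gr P k`, rank of `P` at least 3

From helper13's theorem (`Pool/Agent/W_9986fc_h13`), on the inner product space `V = range P` with the
compressions of `γ i` (trace zero).
-/

open Matrix

namespace CF42

variable {K : ℕ}

theorem exists_gr_zero {P : Mat K} {N k : ℕ} (hP : IsProj P N) (hN : 3 ≤ N) (hk : 1 ≤ k)
    (hkN : k < N) (γ : Fin 3 → Mat K) (hγ : ∀ i, (γ i)ᴴ = γ i) (h0 : ∀ i, rt (γ i) P = 0) :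
    ∃ Q ∈ Gr P k, ∀ i, rt (γ i) Q = 0 := by
  obtain ⟨w, hw, h⟩ := Pool.Agent.W_9986fc_h13.exists_Qw hP.herm hP.idem hP.trace hN hkN γ hγ h0
  exact ⟨_, Pool.Agent.W_9986fc_h13.Qw_mem hP.idem hw, h⟩

end CF42
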