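import Pool.Agent.W_9986fc_h42.Bas

/-!
# The set `Ins` by the vanishing of the Pfaffian

`mem_Ins_iff`: if `pf (arr M ρ) * pf (arr M Q) ≤ 0`, then the Pfaffian vanishes somewhere on the
segment from `Q` to `ρ`, whose points are positive semidefinite and nonzero.
-/

open Matrix

namespace CF42

variable {K : ℕ}

open scoped ComplexOrder in
theorem psd_iff (ρ : Mat K) : Psd ρ ↔ ρ.PosSemidef := by
  constructor
  · rintro ⟨h1, h2⟩
    refine Matrix.PosSemidef.of_dotProduct_mulVec_nonneg h1 fun x => ?_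
    rw [Complex.nonneg_iff]
    refine ⟨h2 x, ?_⟩
    have h3 : star (star x ⬝ᵥ ρ *ᵥ x) = star x ⬝ᵥ ρ *ᵥ x := by
      have h6 : star (star x ⬝ᵥ ρ *ᵥ x) = star (ρ *ᵥ x) ⬝ᵥ x := by
        rw [← Matrix.star_dotProduct_star, star_star]
      rw [h6, Matrix.star_mulVec, h1, ← Matrix.dotProduct_mulVec]
    have h4 := congrArg Complex.im h3
    have h5 : (star (star x ⬝ᵥ ρ *ᵥ x)).im = -(star x ⬝ᵥ ρ *ᵥ x).im := rfl
    rw [h5] at h4
    linarith
  · intro h
    refine ⟨h.1, fun x => ?_⟩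
    exact (Complex.nonneg_iff.1 (h.dotProduct_mulVec_nonneg x)).1

theorem Psd.trace_nonneg {ρ : Mat K} (h : Psd ρ) : 0 ≤ ρ.trace.re := by
  rw [Matrix.trace, Complex.re_sum]
  refine Finset.sum_nonneg fun i _ => ?_
  have h1 := h.2 (Pi.single i 1)
  have h2 : star (Pi.single i (1 : ℂ) : Fin K → ℂ) ⬝ᵥ ρ *ᵥ (Pi.single i 1) = ρ i i := by
    have h3 : star (Pi.single i (1 : ℂ) : Fin K → ℂ) = Pi.single i 1 := by
      funext j
      by_cases hj : j = i
      · subst hj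
        simp
      · simp [Pi.single_eq_of_ne hj]
    rw [h3, Matrix.mulVec_single_one, single_dotProduct, one_mul]
    rfl
  rw [h2] at h1
  exact h1

theorem Psd.comb {ρ σ : Mat K} (h : Psd ρ) (h' : Psd σ) {s t : ℝ} (hs : 0 ≤ s) (ht : 0 ≤ t) :
    Psd ((s : ℂ) • ρ + (t : ℂ) • σ) := by
  refine ⟨?_, fun x => ?_⟩
  · rw [conjTranspose_add, conjTranspose_smul, conjTranspose_smul, h.1, h'.1]
    simp
  · rw [Matrix.add_mulVec, dotProduct_add, Matrix.smul_mulVec, Matrix.smul_mulVec, dotProduct_smul,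
      dotProduct_smul, smul_eq_mul, smul_eq_mul, Complex.add_re, Complex.re_ofReal_mul,
      Complex.re_ofReal_mul]
    exact add_nonneg (mul_nonneg hs (h.2 x)) (mul_nonneg ht (h'.2 x))

theorem psd_of_gr {P Q : Mat K} {k : ℕ} (hQ : Q ∈ Gr P k) : Psd Q := by
  refine ⟨hQ.1, fun x => ?_⟩
  have h1 : star x ⬝ᵥ Q *ᵥ x = star (Q *ᵥ x) ⬝ᵥ (Q *ᵥ x) := by
    rw [Matrix.star_mulVec, hQ.1, ← Matrix.dotProduct_mulVec, Matrix.mulVec_mulVec, hQ.2.1]
  rw [h1, dotProduct, Complex.re_sum]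
  refine Finset.sum_nonneg fun i _ => ?_
  have h2 : ((star (Q *ᵥ x)) i * (Q *ᵥ x) i).re = ((Q *ᵥ x) i).re ^ 2 + ((Q *ᵥ x) i).im ^ 2 := by
    rw [Pi.star_apply, Complex.mul_re]
    change ((Q *ᵥ x) i).re * ((Q *ᵥ x) i).re - (-((Q *ᵥ x) i).im) * ((Q *ᵥ x) i).im = _
    ring
  rw [h2]
  positivity

theorem mem_Ins_iff {Y : Type*} {P : Y → Mat K} {M : Y → Fin 4 → Fin 4 → Mat K} {y : Y}
    (hne : (Gr (P y) 1).Nonempty) :
    y ∈ Ins P M ↔ ∃ ρ : Mat K, Psd ρ ∧ ρ ≠ 0 ∧ P y * ρ = ρ ∧ pf (arr (M y) ρ) = 0 := by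
  constructor
  · rintro ⟨ρ, h1, h2, h3, Q, hQ, h4⟩
    let σ : ℝ → Mat K := fun s => ((1 - s : ℝ) : ℂ) • Q + (s : ℂ) • ρ
    have hσc : ∀ M' : Mat K, Continuous fun s => rt M' (σ s) := by
      intro M'
      have h5 : (fun s => rt M' (σ s)) = fun s => (1 - s) * rt M' Q + s * rt M' ρ := by
        funext s
        rw [rt_add, rt_smul, rt_smul]
      rw [h5]
      fun_prop
    have hc : Continuous fun s => pf (arr (M y) (σ s)) := by
      unfold pf arr
      exact (((hσc _).mul (hσc _)).sub ((hσc _).mul (hσc _))).add ((hσc _).mul (hσc _))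
    have h0 : σ 0 = Q := by simp [σ]
    have h1' : σ 1 = ρ := by simp [σ]
    obtain ⟨s, hs, hs0⟩ : ∃ s ∈ Set.Icc (0 : ℝ) 1, pf (arr (M y) (σ s)) = 0 := by
      rcases le_total (pf (arr (M y) Q)) 0 with hq | hq
      · by_cases hq0 : pf (arr (M y) Q) = 0
        · exact ⟨0, by simp, by rw [h0, hq0]⟩
        · have hq1 : pf (arr (M y) Q) < 0 := lt_of_le_of_ne hq hq0
          have hr : 0 ≤ pf (arr (M y) ρ) := by
            by_contra hcon
            push Not at hcon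
            nlinarith [mul_pos_of_neg_of_neg hcon hq1]
          have hI : (0 : ℝ) ∈ Set.Icc (pf (arr (M y) (σ 0))) (pf (arr (M y) (σ 1))) :=
            ⟨by rw [h0]; exact hq, by rw [h1']; exact hr⟩
          obtain ⟨s, hs, hs'⟩ := intermediate_value_Icc (zero_le_one' ℝ) hc.continuousOn hI
          exact ⟨s, hs, hs'⟩
      · by_cases hq0 : pf (arr (M y) Q) = 0
        · exact ⟨0, by simp, by rw [h0, hq0]⟩
        · have hq1 : 0 < pf (arr (M y) Q) := lt_of_le_of_ne hq (Ne.symm hq0)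
          have hr : pf (arr (M y) ρ) ≤ 0 := by
            by_contra hcon
            push Not at hcon
            nlinarith [mul_pos hcon hq1]
          have hI : (0 : ℝ) ∈ Set.Icc (pf (arr (M y) (σ 1))) (pf (arr (M y) (σ 0))) :=
            ⟨by rw [h1']; exact hr, by rw [h0]; exact hq⟩
          obtain ⟨s, hs, hs'⟩ := intermediate_value_Icc' (zero_le_one' ℝ) hc.continuousOn hI
          exact ⟨s, hs, hs'⟩
    refine ⟨σ s, (psd_of_gr hQ).comb h1 (by linarith [hs.2]) hs.1, ?_, ?_, hs0⟩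
    · intro hz
      by_cases hs1 : s = 1
      · rw [hs1, h1'] at hz
        exact h2 hz
      · have hlt : s < 1 := lt_of_le_of_ne hs.2 hs1
        have h5 : (σ s).trace.re = (1 - s) * 1 + s * ρ.trace.re := by
          change (((1 - s : ℝ) : ℂ) • Q + (s : ℂ) • ρ).trace.re = _
          rw [Matrix.trace_add, Matrix.trace_smul, Matrix.trace_smul, smul_eq_mul, smul_eq_mul,
            Complex.add_re, Complex.re_ofReal_mul, Complex.re_ofReal_mul, hQ.2.2.1]
          simp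
        rw [hz] at h5
        have h6 := mul_nonneg hs.1 h1.trace_nonneg
        simp only [Matrix.trace_zero, Complex.zero_re] at h5
        linarith
    · change P y * (((1 - s : ℝ) : ℂ) • Q + (s : ℂ) • ρ) = _
      rw [mul_add, Matrix.mul_smul, Matrix.mul_smul, hQ.2.2.2, h3]
  · rintro ⟨ρ, h1, h2, h3, h4⟩
    obtain ⟨Q, hQ⟩ := hne
    exact ⟨ρ, h1, h2, h3, Q, hQ, by rw [h4, zero_mul]⟩

end CF42
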