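import Pool.Agent.W_9986fc_h42.Iso

/-!
# Rigidity in rank at least 3 (helper13)

The proof is in `Pool/Agent/W_9986fc_h13/Rigid.lean`.
-/

open Matrix

namespace CF42

variable {K : ℕ}

theorem rigid {P : Mat K} {N k : ℕ} (hP : IsProj P N) (hN : 3 ≤ N) (hk : 1 ≤ k) (hkN : k < N)
    {M : Fin 4 → Fin 4 → Mat K} (hM : HermAlt M) (h : ∀ Q ∈ Gr P k, pf (arr M Q) ≠ 0) :
    pf (arr M P) ≠ 0 :=
  Pool.Agent.W_9986fc_h13.rigid hP.herm hP.idem hP.trace hN hkN M hM.herm h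

end CF42
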