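import Pool.Agent.W_9986fc_h42.Defs

/-!
# Linear algebra at one point of the Grassmann bundle

`V = T_x X`, `D u = d P_x(u)`, `A u = D u * Q + Q * D u` is the horizontal lift.
Facts (from `P D + D P = D`, `P Q = Q = Q P`): `Q D u Q = 0` (`P D P = 0`), `TM u (A u)`.
For `TM u B` put `B' = B - A u`: `B'` hermitian, `Q B' + B' Q = B'`, `P B' = B' = B' P`,
so `B' D B' .. `: the cross terms `tr(Q (A u * B' - B' * A u))` vanish:
`Q D Q = 0`, `Q D u B' = Q P D P B' = 0`, `Q B' D Q = Q B' P D P Q = 0`, `tr(Q B' Q D) = 0` as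
`Q B' Q = 0`.  `tr(Q (A u * A v - A v * A u)) = tr(Q (D u * D v - D v * D u))`.
The vertical form is nondegenerate: if `tr(Q (B' C - C B')) = 0` for all vertical `C`, take
`C = i (Q B' - B' Q)` (vertical, hermitian): `i tr(Q (B' C - C B'))` is `± tr(B' B')`, so
`tr(B'ᴴ B') = 0` and `B' = 0`.
-/

open Matrix

namespace CF42

variable {K : ℕ} {V : Type*} [AddCommGroup V] [Module ℝ V]

/-- `(u, A)` is tangent at `(x, Q)` to `{(x,Q) | Q ∈ Gr (P x) k}`, `D = dP_x` -/
def TM (P Q : Mat K) (D : V →ₗ[ℝ] Mat K) (u : V) (A : Mat K) : Prop :=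
  Aᴴ = A ∧ Q * A + A * Q = A ∧ D u * Q + P * A = A

/-- the Kähler form of the Grassmannian at `Q`: `i tr(Q [A, B])` -/
noncomputable def kf (Q A B : Mat K) : ℝ := (Complex.I * (Q * (A * B - B * A)).trace).re

theorem Tan_kf_add_left (Q A A' B : Mat K) : kf Q (A + A') B = kf Q A B + kf Q A' B := by
  unfold kf
  rw [← Complex.add_re, ← mul_add, ← trace_add]
  congr 3
  noncomm_ring

theorem Tan_kf_add_right (Q A B B' : Mat K) : kf Q A (B + B') = kf Q A B + kf Q A B' := by
  unfold kf
  rw [← Complex.add_re, ← mul_add, ← trace_add]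
  congr 3
  noncomm_ring

theorem Tan_kf_symm (Q A B : Mat K) : kf Q A B = -kf Q B A := by
  unfold kf
  rw [← Complex.neg_re, ← mul_neg, ← trace_neg]
  congr 3
  noncomm_ring

/-- vertical tangent vectors -/
structure Tan_Ver (P Q A : Mat K) : Prop where
  herm : Aᴴ = A
  proj : Q * A + A * Q = A
  le : P * A = A

theorem Tan_mulzero {Q A : Mat K} (hQ : Q * Q = Q) (h : Q * A + A * Q = A) : Q * A * Q = 0 := by
  have h1 : Q * (Q * A + A * Q) * Q = Q * A * Q := by rw [h]
  have h2 : Q * (Q * A + A * Q) * Q = (Q * Q) * A * Q + Q * A * (Q * Q) := by noncomm_ring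
  rw [h2, hQ] at h1
  exact left_eq_add.1 h1.symm

open scoped ComplexOrder in
theorem Tan_vert {P Q A : Mat K} (hQ : Qᴴ = Q ∧ Q * Q = Q ∧ P * Q = Q)
    (hA : Tan_Ver P Q A) (h : ∀ C, Tan_Ver P Q C → kf Q A C = 0) : A = 0 := by
  obtain ⟨hQ1, hQ2, hQ3⟩ := hQ
  obtain ⟨hA1, hA2, hA3⟩ := hA
  have hz := Tan_mulzero hQ2 hA2
  have h1 := h (Complex.I • (Q * A - A * Q)) ⟨?_, ?_, ?_⟩
  · -- evaluate
    have h2 : (Q * (A * (Complex.I • (Q * A - A * Q)) - (Complex.I • (Q * A - A * Q)) * A)).trace =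
        -(Complex.I * (A * A).trace) := by
      have e1 : Q * (A * (Complex.I • (Q * A - A * Q)) - (Complex.I • (Q * A - A * Q)) * A) =
          Complex.I • ((Q * A * Q) * A - Q * A * A * Q - (Q * Q) * A * A + (Q * A * Q) * A) := by
        simp only [mul_smul_comm, smul_mul_assoc, ← smul_sub]
        congr 1
        noncomm_ring
      rw [e1, hz, hQ2, zero_mul, zero_sub, add_zero, trace_smul, trace_sub, trace_neg, smul_eq_mul]
      have e2 : (Q * A * A * Q).trace = (Q * A * A).trace := by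
        rw [trace_mul_comm, ← mul_assoc, ← mul_assoc, hQ2]
      have e3 : (A * A).trace = (Q * A * A).trace + (Q * A * A).trace := by
        conv_lhs => rw [← hA2]
        have : (Q * A + A * Q) * (Q * A + A * Q) = (Q * A * Q) * A + Q * A * A * Q +
            A * (Q * Q) * A + A * (Q * A * Q) := by noncomm_ring
        rw [this, hz, hQ2, zero_mul, mul_zero, zero_add, add_zero, trace_add, e2]
        congr 1
        rw [mul_assoc, trace_mul_comm, mul_assoc]
      rw [e2, e3]
      ring
    have h3 : (A * A).trace.re = 0 := by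
      unfold kf at h1
      rw [h2] at h1
      have : Complex.I * -(Complex.I * (A * A).trace) = (A * A).trace := by
        rw [mul_neg, ← mul_assoc, Complex.I_mul_I]
        ring
      rw [this] at h1
      exact h1
    have h4 : (Aᴴ * A).trace = 0 := by
      rw [hA1]
      refine Complex.ext h3 ?_
      have h5 : star (A * A).trace = (A * A).trace := by
        rw [← trace_conjTranspose, conjTranspose_mul, hA1]
      exact Complex.conj_eq_iff_im.1 h5
    exact trace_conjTranspose_mul_self_eq_zero_iff.1 h4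
  · rw [conjTranspose_smul, conjTranspose_sub, conjTranspose_mul, conjTranspose_mul, hQ1, hA1,
      Complex.star_def, Complex.conj_I, neg_smul, ← smul_neg, neg_sub]
  · rw [mul_smul_comm, smul_mul_assoc, ← smul_add]
    congr 1
    have : Q * (Q * A - A * Q) + (Q * A - A * Q) * Q = (Q * Q) * A - A * (Q * Q) := by noncomm_ring
    rw [this, hQ2]
  · rw [mul_smul_comm, mul_sub, ← mul_assoc, ← mul_assoc, hQ3, hA3]

theorem nondeg_TM {P Q : Mat K} {k : ℕ} (hP1 : Pᴴ = P) (hP2 : P * P = P) (hQ : Q ∈ Gr P k)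
    (D : V →ₗ[ℝ] Mat K) (hD : ∀ u, (D u)ᴴ = D u) (hDP : ∀ u, P * D u + D u * P = D u)
    (β : V →ₗ[ℝ] V →ₗ[ℝ] ℝ) :
    (∀ u A, TM P Q D u A → (∀ v B, TM P Q D v B → β u v + kf Q A B = 0) → u = 0 ∧ A = 0) ↔
      ∀ u, (∀ v, β u v + kf Q (D u) (D v) = 0) → u = 0 := by
  obtain ⟨hQ1, hQ2, -, hQ3⟩ := hQ
  have hQ4 : Q * P = Q := by
    have := congrArg conjTranspose hQ3
    rwa [conjTranspose_mul, hQ1, hP1] at this
  have hPDP : ∀ u, P * D u * P = 0 := fun u => Tan_mulzero hP2 (hDP u)
  have hPDQ : ∀ u, P * D u * Q = 0 := by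
    intro u
    calc P * D u * Q = (P * D u * P) * Q := by rw [mul_assoc _ P Q, hQ3]
      _ = 0 := by rw [hPDP, zero_mul]
  have hQDQ : ∀ u, Q * D u * Q = 0 := by
    intro u
    calc Q * D u * Q = Q * (P * D u * Q) := by
          rw [← mul_assoc, ← mul_assoc, hQ4]
      _ = 0 := by rw [hPDQ, mul_zero]
  -- horizontal lifts
  have hhor : ∀ u, TM P Q D u (D u * Q + Q * D u) := by
    intro u
    refine ⟨?_, ?_, ?_⟩
    · rw [conjTranspose_add, conjTranspose_mul, conjTranspose_mul, hQ1, hD, add_comm]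
    · have : Q * (D u * Q + Q * D u) + (D u * Q + Q * D u) * Q =
          Q * D u * Q + (Q * Q) * D u + (D u * (Q * Q) + Q * D u * Q) := by noncomm_ring
      rw [this, hQDQ, hQ2, zero_add, add_zero, add_comm]
    · have : D u * Q + P * (D u * Q + Q * D u) = D u * Q + (P * D u * Q + (P * Q) * D u) := by
        noncomm_ring
      rw [this, hPDQ, hQ3, zero_add]
  -- differences are vertical
  have hver : ∀ u A, TM P Q D u A → Tan_Ver P Q (A - (D u * Q + Q * D u)) := by
    intro u A hA
    obtain ⟨a1, a2, a3⟩ := hA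
    obtain ⟨b1, b2, b3⟩ := hhor u
    refine ⟨?_, ?_, ?_⟩
    · rw [conjTranspose_sub, a1, b1]
    · calc Q * (A - (D u * Q + Q * D u)) + (A - (D u * Q + Q * D u)) * Q =
          (Q * A + A * Q) - (Q * (D u * Q + Q * D u) + (D u * Q + Q * D u) * Q) := by noncomm_ring
        _ = _ := by rw [a2, b2]
    · have h1 : P * (A - (D u * Q + Q * D u)) =
          (D u * Q + P * A) - (D u * Q + P * (D u * Q + Q * D u)) := by noncomm_ring
      rw [h1, a3, b3]
  -- cross terms
  have hcross : ∀ u B, Tan_Ver P Q B → kf Q (D u * Q + Q * D u) B = 0 := by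
    intro u B hB
    have hz := Tan_mulzero hQ2 hB.proj
    have hBP : B * P = B := by
      have := congrArg conjTranspose hB.le
      rwa [conjTranspose_mul, hB.herm, hP1] at this
    have e1 : Q * D u * B = 0 := by
      calc Q * D u * B = Q * (P * D u * P) * B := by
            have : Q * (P * D u * P) * B = (Q * P) * D u * (P * B) := by noncomm_ring
            rw [this, hQ4, hB.le]
        _ = 0 := by rw [hPDP, mul_zero, zero_mul]
    have e2 : B * D u * Q = 0 := by
      calc B * D u * Q = B * (P * D u * P) * Q := by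
            have : B * (P * D u * P) * Q = (B * P) * D u * (P * Q) := by noncomm_ring
            rw [this, hBP, hQ3]
        _ = 0 := by rw [hPDP, mul_zero, zero_mul]
    unfold kf
    have e3 : Q * ((D u * Q + Q * D u) * B - B * (D u * Q + Q * D u)) =
        (Q * D u * Q) * B + (Q * Q) * D u * B - Q * (B * D u * Q) - (Q * B * Q) * D u := by
      noncomm_ring
    rw [e3, hQDQ, hQ2, e1, e2, hz]
    simp
  have hhh : ∀ u v, kf Q (D u * Q + Q * D u) (D v * Q + Q * D v) = kf Q (D u) (D v) := by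
    intro u v
    unfold kf
    congr 2
    have e3 : Q * ((D u * Q + Q * D u) * (D v * Q + Q * D v) -
        (D v * Q + Q * D v) * (D u * Q + Q * D u)) =
        (Q * D u * Q) * D v * Q + (Q * D u * (Q * Q)) * D v + (Q * Q) * D u * D v * Q +
          (Q * (Q * D u * Q)) * D v - ((Q * D v * Q) * D u * Q + (Q * D v * (Q * Q)) * D u +
          (Q * Q) * D v * D u * Q + (Q * (Q * D v * Q)) * D u) := by noncomm_ring
    rw [e3, hQ2, hQDQ, hQDQ]
    simp only [zero_mul, mul_zero, zero_add, add_zero]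
    have e4 : ∀ X Y : Mat K, (Q * X * Y * Q).trace = (Q * (X * Y)).trace := by
      intro X Y
      rw [trace_mul_comm, ← mul_assoc, ← mul_assoc, hQ2, mul_assoc]
    rw [trace_sub, e4, e4, mul_sub, trace_sub]
  constructor
  · intro h u hu
    refine (h u _ (hhor u) fun v B hB => ?_).1
    have h1 : B = (D v * Q + Q * D v) + (B - (D v * Q + Q * D v)) := by abel
    rw [h1, Tan_kf_add_right, hcross u _ (hver v B hB), add_zero, hhh]
    exact hu v
  · intro h u A hA hn
    have hA' := hver u A hA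
    have hu : u = 0 := by
      apply h
      intro v
      have h1 := hn v _ (hhor v)
      have h2 : A = (D u * Q + Q * D u) + (A - (D u * Q + Q * D u)) := by abel
      rw [h2, Tan_kf_add_left, Tan_kf_symm Q (A - (D u * Q + Q * D u)), hcross v _ hA', hhh,
        neg_zero, add_zero] at h1
      exact h1
    refine ⟨hu, ?_⟩
    subst hu
    rw [map_zero, zero_mul, mul_zero, add_zero, sub_zero] at hA'
    refine Tan_vert ⟨hQ1, hQ2, hQ3⟩ hA' fun C hC => ?_
    have h1 := hn 0 C ⟨hC.herm, hC.proj, by rw [map_zero, zero_mul, zero_add, hC.le]⟩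
    simpa using h1

end CF42
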