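import Pool.Agent.W_9986fc_h63.Base

/-!
# Linear algebra at one point of the flag bundle

`V = T_x X`, `D u = d P_x(u)`, `H a = D u * Q a + Q a * D u` is the horizontal lift.  For a vertical
tangent vector `B` (`∑ B a = 0`) all cross terms vanish and the form on two horizontal lifts is
`Im tr ((∑ l a Q a) [D u, D v])`.  The vertical form is nondegenerate: with `W = ∑ l a B a` and
`C a = -i [W, Q a]` one has `kks l Q B C = - tr (W W)`, so `W = 0`, and
`Q a W Q c = (l a - l c) Q a (B a) Q c`.
-/

set_option autoImplicit false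

open Matrix

namespace Pool.Agent.W_9986fc_h63

variable {K s : ℕ}

theorem TanFl_mulzero {Q A : Mat K} (hQ : Q * Q = Q) (h : A * Q + Q * A = A) : Q * A * Q = 0 := by
  have h1 : Q * (A * Q + Q * A) * Q = Q * A * Q := by rw [h]
  have h2 : Q * (A * Q + Q * A) * Q = Q * A * (Q * Q) + (Q * Q) * A * Q := by noncomm_ring
  rw [h2, hQ] at h1
  exact left_eq_add.1 h1.symm

theorem kks_add_left (l : Fin s → ℝ) (Q A A' B : Fin s → Mat K) :
    kks l Q (A + A') B = kks l Q A B + kks l Q A' B := by
  unfold kks
  rw [← Finset.sum_add_distrib]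
  refine Finset.sum_congr rfl fun a _ => ?_
  rw [← mul_add, ← Complex.add_im, ← trace_add]
  congr 3
  simp only [Pi.add_apply]
  noncomm_ring

theorem kks_add_right (l : Fin s → ℝ) (Q A B B' : Fin s → Mat K) :
    kks l Q A (B + B') = kks l Q A B + kks l Q A B' := by
  unfold kks
  rw [← Finset.sum_add_distrib]
  refine Finset.sum_congr rfl fun a _ => ?_
  rw [← mul_add, ← Complex.add_im, ← trace_add]
  congr 3
  simp only [Pi.add_apply]
  noncomm_ring

theorem kks_symm (l : Fin s → ℝ) (Q A B : Fin s → Mat K) : kks l Q A B = - kks l Q B A := by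
  unfold kks
  rw [← Finset.sum_neg_distrib]
  refine Finset.sum_congr rfl fun a _ => ?_
  rw [← mul_neg, ← Complex.neg_im, ← trace_neg]
  congr 3
  noncomm_ring

theorem flag_proj {P : Mat K} {k : Fin s → ℕ} {Q : Fin s → Mat K} (hQ : IsFlag k P Q) (a : Fin s) :
    P * Q a = Q a ∧ Q a * P = Q a := by
  rw [← hQ.sum]
  constructor
  · rw [Finset.sum_mul]
    simp [hQ.mul]
  · rw [Finset.mul_sum]
    simp [hQ.mul]

/-- facts about a vertical tangent vector -/
theorem flag_vert {P : Mat K} {k : Fin s → ℕ} {Q B : Fin s → Mat K} (hP : Pᴴ = P)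
    (hQ : IsFlag k P Q) (hB : IsFlagTangent Q 0 B) (a : Fin s) :
    B a * P = B a ∧ P * B a = B a ∧ Q a * B a * Q a = 0 := by
  have h1 : B a * P = B a := by
    have h2 : ∑ b, (B a * Q b + Q a * B b) = B a := by
      simp only [hB.mul]
      simp
    rw [Finset.sum_add_distrib, ← Finset.mul_sum, ← Finset.mul_sum, hQ.sum, hB.sum, mul_zero,
      add_zero] at h2
    exact h2
  refine ⟨h1, ?_, ?_⟩
  · have h2 := congrArg conjTranspose h1
    rwa [conjTranspose_mul, hP, (hB.herm a).eq] at h2
  · refine TanFl_mulzero ?_ ?_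
    · rw [hQ.mul, if_pos rfl]
    · rw [hB.mul, if_pos rfl]

theorem flag_nondeg {P : Mat K} {k : Fin s → ℕ} {l : Fin s → ℝ} (hl : Function.Injective l)
    (hP : Pᴴ = P) {Q B : Fin s → Mat K} (hQ : IsFlag k P Q) (hB : IsFlagTangent Q 0 B)
    (h : ∀ C, IsFlagTangent Q 0 C → kks l Q B C = 0) : B = 0 := by
  set W : Mat K := ∑ a, (l a : ℂ) • B a with hW
  have hWh : Wᴴ = W := by
    rw [hW, conjTranspose_sum]
    refine Finset.sum_congr rfl fun a _ => ?_
    rw [conjTranspose_smul, (hB.herm a).eq, Complex.star_def, Complex.conj_ofReal]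
  have hWP : W * P = W := by
    rw [hW, Finset.sum_mul]
    refine Finset.sum_congr rfl fun a _ => ?_
    rw [smul_mul_assoc, (flag_vert hP hQ hB a).1]
  have hPW : P * W = W := by
    rw [hW, Finset.mul_sum]
    refine Finset.sum_congr rfl fun a _ => ?_
    rw [mul_smul_comm, (flag_vert hP hQ hB a).2.1]
  have hQh : ∀ a, (Q a)ᴴ = Q a := fun a => (hQ.herm a).eq
  have hC : IsFlagTangent Q 0 (fun a => (-Complex.I) • (W * Q a - Q a * W)) := by
    refine ⟨fun a => ?_, fun a b => ?_, ?_⟩
    · change ((-Complex.I) • (W * Q a - Q a * W))ᴴ = _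
      rw [conjTranspose_smul, conjTranspose_sub, conjTranspose_mul, conjTranspose_mul, hWh, hQh,
        star_neg, Complex.star_def, Complex.conj_I, neg_neg, neg_smul, ← smul_neg, neg_sub]
    · change ((-Complex.I) • (W * Q a - Q a * W)) * Q b + Q a * ((-Complex.I) • (W * Q b - Q b * W)) =
        if a = b then ((-Complex.I) • (W * Q a - Q a * W)) else 0
      rw [smul_mul_assoc, mul_smul_comm, ← smul_add]
      have e : (W * Q a - Q a * W) * Q b + Q a * (W * Q b - Q b * W) =
          W * (Q a * Q b) - (Q a * Q b) * W := by noncomm_ring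
      rw [e, hQ.mul]
      by_cases hab : a = b
      · simp [hab]
      · simp [hab]
    · rw [← Finset.smul_sum, Finset.sum_sub_distrib, ← Finset.mul_sum, ← Finset.sum_mul, hQ.sum,
        hWP, hPW, sub_self, smul_zero]
  have h1 := h _ hC
  -- evaluate
  have h2 : ∀ a, (Q a * (B a * ((-Complex.I) • (W * Q a - Q a * W)) -
      ((-Complex.I) • (W * Q a - Q a * W)) * B a)).trace = (-Complex.I) * (B a * W).trace := by
    intro a
    obtain ⟨-, -, hz⟩ := flag_vert hP hQ hB a
    have hqq : Q a * Q a = Q a := by rw [hQ.mul, if_pos rfl]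
    have hbb : B a * Q a + Q a * B a = B a := by rw [hB.mul, if_pos rfl]
    have e1 : Q a * (B a * ((-Complex.I) • (W * Q a - Q a * W)) -
        ((-Complex.I) • (W * Q a - Q a * W)) * B a) =
        (-Complex.I) • (Q a * B a * W * Q a - (Q a * B a * Q a) * W - Q a * W * Q a * B a +
          (Q a * Q a) * W * B a) := by
      simp only [mul_smul_comm, smul_mul_assoc, ← smul_sub]
      congr 1
      noncomm_ring
    rw [e1, hz, hqq, zero_mul, sub_zero, trace_smul, smul_eq_mul]
    congr 1
    rw [trace_add, trace_sub]
    have e2 : (Q a * B a * W * Q a).trace = (Q a * B a * W).trace := by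
      rw [trace_mul_comm, ← mul_assoc, ← mul_assoc, hqq]
    have e3 : (Q a * W * Q a * B a).trace = 0 := by
      have : (Q a * W * Q a * B a).trace = (W * (Q a * B a * Q a)).trace := by
        rw [mul_assoc, mul_assoc, trace_mul_comm]
        congr 1
        noncomm_ring
      rw [this, hz, mul_zero, trace_zero]
    have e4 : (Q a * W * B a).trace = (B a * Q a * W).trace := by
      rw [trace_mul_comm, ← mul_assoc]
    rw [e2, e3, e4, sub_zero, ← trace_add, ← add_mul, add_comm (Q a * B a), hbb]
  have h3 : kks l Q B (fun a => (-Complex.I) • (W * Q a - Q a * W)) = - (W * W).trace.re := by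
    unfold kks
    have e : ∀ a, l a * (Matrix.trace (Q a * (B a * ((-Complex.I) • (W * Q a - Q a * W)) -
        ((-Complex.I) • (W * Q a - Q a * W)) * B a))).im =
        ((-Complex.I) * (((l a : ℂ) • B a) * W).trace).im := by
      intro a
      rw [h2, smul_mul_assoc, trace_smul, smul_eq_mul, mul_left_comm, Complex.im_ofReal_mul]
    simp only [e]
    rw [← Complex.im_sum, ← Finset.mul_sum, ← trace_sum, ← Finset.sum_mul, ← hW]
    simp
  rw [h3] at h1
  have hW0 : W = 0 := by
    have h4 : (Wᴴ * W).trace = 0 := by
      rw [hWh]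
      refine Complex.ext (by simpa using h1) ?_
      have h5 : star (W * W).trace = (W * W).trace := by
        rw [← trace_conjTranspose, conjTranspose_mul, hWh]
      exact Complex.conj_eq_iff_im.1 h5
    open scoped ComplexOrder in
    exact trace_conjTranspose_mul_self_eq_zero_iff.1 h4
  have hqb : ∀ a, Q a * B a = 0 := by
    intro a
    have h5 : ∀ c, Q a * B a * Q c = 0 := by
      intro c
      by_cases hac : a = c
      · subst hac
        exact (flag_vert hP hQ hB a).2.2
      · have h6 : Q a * W * Q c = ((l a : ℂ) - (l c : ℂ)) • (Q a * B a * Q c) := by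
          rw [hW, Finset.mul_sum, Finset.sum_mul]
          have h7 : ∀ b, Q a * ((l b : ℂ) • B b) * Q c =
              (if b = a then (l a : ℂ) • (Q a * B a * Q c) else 0) +
                (if b = c then -((l c : ℂ) • (Q a * B a * Q c)) else 0) := by
            intro b
            rw [mul_smul_comm, smul_mul_assoc]
            by_cases hba : b = a
            · subst hba
              simp [hac]
            · by_cases hbc : b = c
              · subst hbc
                have h8 := hB.mul a b
                rw [if_neg hac] at h8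
                have h9 : Q a * (B a * Q b + Q a * B b) * Q b = 0 := by rw [h8]; simp
                have h10 : Q a * (B a * Q b + Q a * B b) * Q b =
                    Q a * B a * (Q b * Q b) + (Q a * Q a) * B b * Q b := by noncomm_ring
                rw [h10, hQ.mul, hQ.mul, if_pos rfl, if_pos rfl] at h9
                have h11 : Q a * B b * Q b = -(Q a * B a * Q b) :=
                  eq_neg_of_add_eq_zero_right h9
                rw [h11]
                simp [hba]
              · have h8 := hB.mul b c
                rw [if_neg hbc] at h8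
                have h9 : Q a * (B b * Q c + Q b * B c) = 0 := by rw [h8]; simp
                have h10 : Q a * (B b * Q c + Q b * B c) = Q a * B b * Q c + (Q a * Q b) * B c := by
                  noncomm_ring
                rw [h10, hQ.mul, if_neg (fun e => hba e.symm), zero_mul, add_zero] at h9
                rw [h9]
                simp [hba, hbc]
          simp only [h7]
          rw [Finset.sum_add_distrib, Finset.sum_ite_eq', Finset.sum_ite_eq',
            if_pos (Finset.mem_univ _), if_pos (Finset.mem_univ _), sub_smul, sub_eq_add_neg]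
        rw [hW0, mul_zero, zero_mul] at h6
        rcases smul_eq_zero.1 h6.symm with h7 | h7
        · exfalso
          have h8 : (l a : ℂ) = l c := sub_eq_zero.1 h7
          exact hac (hl (by exact_mod_cast h8))
        · exact h7
    have h6 : ∑ c, Q a * B a * Q c = 0 := Finset.sum_eq_zero fun c _ => h5 c
    rw [← Finset.mul_sum, hQ.sum, mul_assoc, (flag_vert hP hQ hB a).1] at h6
    exact h6
  funext a
  have hbb : B a * Q a + Q a * B a = B a := by rw [hB.mul, if_pos rfl]
  have h7 : B a * Q a = 0 := by
    have h8 := congrArg conjTranspose (hqb a)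
    rwa [conjTranspose_mul, hQh, (hB.herm a).eq, conjTranspose_zero] at h8
  rw [hqb, h7, add_zero] at hbb
  exact hbb.symm

section

variable {V : Type*} [AddCommGroup V] [Module ℝ V]

theorem nondeg_flag {P : Mat K} {k : Fin s → ℕ}
    {l : Fin s → ℝ} (hl : Function.Injective l) (hP1 : Pᴴ = P) (hP2 : P * P = P)
    {Q : Fin s → Mat K} (hQ : IsFlag k P Q) (D : V →ₗ[ℝ] Mat K) (hD : ∀ u, (D u)ᴴ = D u)
    (hDP : ∀ u, P * D u + D u * P = D u) (β : V →ₗ[ℝ] V →ₗ[ℝ] ℝ) :
    (∀ u A, IsFlagTangent Q (D u) A →
      (∀ v B, IsFlagTangent Q (D v) B → β u v + kks l Q A B = 0) → u = 0 ∧ A = 0) ↔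
      ∀ u, (∀ v, β u v + (Matrix.trace ((∑ a, (l a : ℂ) • Q a) *
        (D u * D v - D v * D u))).im = 0) → u = 0 := by
  have hQh : ∀ a, (Q a)ᴴ = Q a := fun a => (hQ.herm a).eq
  have hqq : ∀ a, Q a * Q a = Q a := fun a => by rw [hQ.mul, if_pos rfl]
  have hPDP : ∀ u, P * D u * P = 0 := fun u =>
    TanFl_mulzero hP2 (by rw [add_comm]; exact hDP u)
  have hQDQ : ∀ u a b, Q a * D u * Q b = 0 := by
    intro u a b
    calc Q a * D u * Q b = Q a * (P * D u * P) * Q b := by
          have : Q a * (P * D u * P) * Q b = (Q a * P) * D u * (P * Q b) := by noncomm_ring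
          rw [this, (flag_proj hQ a).2, (flag_proj hQ b).1]
      _ = 0 := by rw [hPDP, mul_zero, zero_mul]
  -- horizontal lifts
  have hhor : ∀ u, IsFlagTangent Q (D u) (fun a => D u * Q a + Q a * D u) := by
    intro u
    refine ⟨fun a => ?_, fun a b => ?_, ?_⟩
    · change (D u * Q a + Q a * D u)ᴴ = _
      rw [conjTranspose_add, conjTranspose_mul, conjTranspose_mul, hQh, hD, add_comm]
    · change (D u * Q a + Q a * D u) * Q b + Q a * (D u * Q b + Q b * D u) =
        if a = b then D u * Q a + Q a * D u else 0
      have e : (D u * Q a + Q a * D u) * Q b + Q a * (D u * Q b + Q b * D u) =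
          D u * (Q a * Q b) + Q a * D u * Q b + (Q a * D u * Q b + (Q a * Q b) * D u) := by
        noncomm_ring
      rw [e, hQDQ, hQ.mul, add_zero, zero_add]
      by_cases hab : a = b
      · simp [hab]
      · simp [hab]
    · rw [Finset.sum_add_distrib, ← Finset.mul_sum, ← Finset.sum_mul, hQ.sum, add_comm]
      exact hDP u
  -- differences are vertical
  have hver : ∀ u A, IsFlagTangent Q (D u) A →
      IsFlagTangent Q 0 (A - fun a => D u * Q a + Q a * D u) := by
    intro u A hA
    have hH := hhor u
    refine ⟨fun a => ?_, fun a b => ?_, ?_⟩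
    · exact (hA.herm a).sub (hH.herm a)
    · have h1 := hA.mul a b
      have h2 := hH.mul a b
      change (A a - (D u * Q a + Q a * D u)) * Q b + Q a * (A b - (D u * Q b + Q b * D u)) =
        if a = b then A a - (D u * Q a + Q a * D u) else 0
      have e : (A a - (D u * Q a + Q a * D u)) * Q b + Q a * (A b - (D u * Q b + Q b * D u)) =
          (A a * Q b + Q a * A b) - ((D u * Q a + Q a * D u) * Q b +
            Q a * (D u * Q b + Q b * D u)) := by noncomm_ring
      rw [e, h1, h2]
      by_cases hab : a = b
      · simp [hab]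
      · simp [hab]
    · simp only [Pi.sub_apply]
      rw [Finset.sum_sub_distrib, hA.sum, hH.sum, sub_self]
  -- cross terms
  have hcross : ∀ u B, IsFlagTangent Q 0 B → kks l Q (fun a => D u * Q a + Q a * D u) B = 0 := by
    intro u B hB
    unfold kks
    refine Finset.sum_eq_zero fun a _ => ?_
    obtain ⟨hBP, hPB, hz⟩ := flag_vert hP1 hQ hB a
    obtain ⟨hPQ, hQP⟩ := flag_proj hQ a
    have e1 : Q a * D u * B a = 0 := by
      calc Q a * D u * B a = Q a * (P * D u * P) * B a := by
            have : Q a * (P * D u * P) * B a = (Q a * P) * D u * (P * B a) := by noncomm_ring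
            rw [this, hQP, hPB]
        _ = 0 := by rw [hPDP, mul_zero, zero_mul]
    have e2 : B a * D u * Q a = 0 := by
      calc B a * D u * Q a = B a * (P * D u * P) * Q a := by
            have : B a * (P * D u * P) * Q a = (B a * P) * D u * (P * Q a) := by noncomm_ring
            rw [this, hBP, hPQ]
        _ = 0 := by rw [hPDP, mul_zero, zero_mul]
    have e3 : Q a * ((D u * Q a + Q a * D u) * B a - B a * (D u * Q a + Q a * D u)) =
        (Q a * D u * Q a) * B a + (Q a * Q a) * D u * B a - Q a * (B a * D u * Q a) -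
          (Q a * B a * Q a) * D u := by
      noncomm_ring
    rw [e3, hQDQ, hqq, e1, e2, hz]
    simp
  have hhh : ∀ u v, kks l Q (fun a => D u * Q a + Q a * D u) (fun a => D v * Q a + Q a * D v) =
      (Matrix.trace ((∑ a, (l a : ℂ) • Q a) * (D u * D v - D v * D u))).im := by
    intro u v
    unfold kks
    rw [Finset.sum_mul, trace_sum, Complex.im_sum]
    refine Finset.sum_congr rfl fun a _ => ?_
    rw [smul_mul_assoc, trace_smul, smul_eq_mul, Complex.im_ofReal_mul]
    congr 2
    have e3 : Q a * ((D u * Q a + Q a * D u) * (D v * Q a + Q a * D v) -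
        (D v * Q a + Q a * D v) * (D u * Q a + Q a * D u)) =
        (Q a * D u * Q a) * D v * Q a + (Q a * D u * (Q a * Q a)) * D v +
          (Q a * Q a) * D u * D v * Q a +
          (Q a * (Q a * D u * Q a)) * D v - ((Q a * D v * Q a) * D u * Q a +
          (Q a * D v * (Q a * Q a)) * D u +
          (Q a * Q a) * D v * D u * Q a + (Q a * (Q a * D v * Q a)) * D u) := by noncomm_ring
    rw [e3, hqq, hQDQ, hQDQ]
    simp only [zero_mul, mul_zero, zero_add, add_zero]
    have e4 : ∀ X Y : Mat K, (Q a * X * Y * Q a).trace = (Q a * (X * Y)).trace := by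
      intro X Y
      rw [trace_mul_comm, ← mul_assoc, ← mul_assoc, hqq, mul_assoc]
    rw [trace_sub, e4, e4, mul_sub, trace_sub]
  constructor
  · intro h u hu
    refine (h u _ (hhor u) fun v B hB => ?_).1
    have h1 : B = (fun a => D v * Q a + Q a * D v) + (B - fun a => D v * Q a + Q a * D v) := by abel
    rw [h1, kks_add_right, hcross u _ (hver v B hB), add_zero, hhh]
    exact hu v
  · intro h u A hA hn
    have hA' := hver u A hA
    have hu : u = 0 := by
      apply h
      intro v
      have h1 := hn v _ (hhor v)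
      have h2 : A = (fun a => D u * Q a + Q a * D u) + (A - fun a => D u * Q a + Q a * D u) := by
        abel
      rw [h2, kks_add_left, kks_symm l Q (A - fun a => D u * Q a + Q a * D u), hcross v _ hA', hhh,
        neg_zero, add_zero] at h1
      exact h1
    refine ⟨hu, ?_⟩
    subst hu
    have hA0 : IsFlagTangent Q 0 A := by
      have := hA
      rwa [map_zero] at this
    refine flag_nondeg hl hP1 hQ hA0 fun C hC => ?_
    have h1 := hn 0 C (by rw [map_zero]; exact hC)
    simpa using h1

end

end Pool.Agent.W_9986fc_h63
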