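import Pool.Agent.W_9986fc_h42.Bas

/-!
# Three functionals

`A_i(Q) = Re tr(α_i Q)`, `B_i(Q) = Re tr(β_i Q)` where `α_0 = (M 0 1 + M 2 3)/2`, ... are the
hermitian matrices with `av (arr M Q) i = rt (α i) Q`, `bv (arr M Q) i = rt (β i) Q`.
By `pf_eq`, `‖B(Q)‖ < ‖A(Q)‖` on `S` and `‖A(P)‖ ≤ ‖B(P)‖`.
If `B(P) = 0`, then `A(P) = 0`; take `γ = α`.
Otherwise let `b = B(P)`, `S(Q) = ∑ b_j B_j(Q)` (so `S(P) = ‖b‖² ≠ 0`, and `|S(Q)| ≤ ‖b‖ ‖B(Q)‖`),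
`γ_i = α_i - (A_i(P)/‖b‖²) ∑_j b_j β_j`.  Then `rt γ_i P = 0`; if all `rt γ_i Q = 0`, then
`A(Q) = A(P) S(Q)/‖b‖²`, so `‖A(Q)‖ ≤ ‖A(P)‖ ‖B(Q)‖/‖b‖ ≤ ‖B(Q)‖`, a contradiction.
-/

open Matrix

namespace CF42

variable {K : ℕ}

/-- the matrices of the first three functionals -/
noncomputable def Tri_al (M : Fin 4 → Fin 4 → Mat K) : Fin 3 → Mat K :=
  ![((1 / 2 : ℝ) : ℂ) • (M 0 1 + M 2 3), ((1 / 2 : ℝ) : ℂ) • (M 0 2 + ((-1 : ℝ) : ℂ) • M 1 3),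
    ((1 / 2 : ℝ) : ℂ) • (M 0 3 + M 1 2)]

/-- the matrices of the last three functionals -/
noncomputable def Tri_be (M : Fin 4 → Fin 4 → Mat K) : Fin 3 → Mat K :=
  ![((1 / 2 : ℝ) : ℂ) • (M 0 1 + ((-1 : ℝ) : ℂ) • M 2 3), ((1 / 2 : ℝ) : ℂ) • (M 0 2 + M 1 3),
    ((1 / 2 : ℝ) : ℂ) • (M 0 3 + ((-1 : ℝ) : ℂ) • M 1 2)]

theorem Tri_av (M : Fin 4 → Fin 4 → Mat K) (Q : Mat K) (i : Fin 3) :
    rt (Tri_al M i) Q = av (arr M Q) i := by
  fin_cases i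
  · simp only [Tri_al, av, arr, Fin.zero_eta, Matrix.cons_val_zero, rt_smul_left, rt_add_left]
    ring
  · simp only [Tri_al, av, arr, Fin.mk_one, Matrix.cons_val_one, Matrix.cons_val_zero,
      rt_smul_left, rt_add_left]
    ring
  · simp only [Tri_al, av, arr, Fin.reduceFinMk, Matrix.cons_val, rt_smul_left, rt_add_left]
    ring

theorem Tri_bv (M : Fin 4 → Fin 4 → Mat K) (Q : Mat K) (i : Fin 3) :
    rt (Tri_be M i) Q = bv (arr M Q) i := by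
  fin_cases i
  · simp only [Tri_be, bv, arr, Fin.zero_eta, Matrix.cons_val_zero, rt_smul_left, rt_add_left]
    ring
  · simp only [Tri_be, bv, arr, Fin.mk_one, Matrix.cons_val_one, Matrix.cons_val_zero,
      rt_smul_left, rt_add_left]
    ring
  · simp only [Tri_be, bv, arr, Fin.reduceFinMk, Matrix.cons_val, rt_smul_left, rt_add_left]
    ring

theorem Tri_herm_smul {A : Mat K} (hA : Aᴴ = A) (c : ℝ) : ((c : ℂ) • A)ᴴ = (c : ℂ) • A := by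
  rw [Matrix.conjTranspose_smul, hA, Complex.star_def, Complex.conj_ofReal]

theorem Tri_herm_add {A B : Mat K} (hA : Aᴴ = A) (hB : Bᴴ = B) : (A + B)ᴴ = A + B := by
  rw [Matrix.conjTranspose_add, hA, hB]

theorem Tri_al_herm {M : Fin 4 → Fin 4 → Mat K} (hM : HermAlt M) (i : Fin 3) :
    (Tri_al M i)ᴴ = Tri_al M i := by
  have h := hM.herm
  fin_cases i
  · exact Tri_herm_smul (Tri_herm_add (h 0 1) (h 2 3)) _
  · exact Tri_herm_smul (Tri_herm_add (h 0 2) (Tri_herm_smul (h 1 3) _)) _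
  · exact Tri_herm_smul (Tri_herm_add (h 0 3) (h 1 2)) _

theorem Tri_be_herm {M : Fin 4 → Fin 4 → Mat K} (hM : HermAlt M) (i : Fin 3) :
    (Tri_be M i)ᴴ = Tri_be M i := by
  have h := hM.herm
  fin_cases i
  · exact Tri_herm_smul (Tri_herm_add (h 0 1) (Tri_herm_smul (h 2 3) _)) _
  · exact Tri_herm_smul (Tri_herm_add (h 0 2) (h 1 3)) _
  · exact Tri_herm_smul (Tri_herm_add (h 0 3) (Tri_herm_smul (h 1 2) _)) _

theorem Tri_coord {v : E3} (hv : v ≠ 0) : ∃ i, v i ≠ 0 := by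
  by_contra h
  push Not at h
  exact hv (by ext i; simpa using h i)

theorem exists_gamma {P : Mat K} {M : Fin 4 → Fin 4 → Mat K} (hM : HermAlt M) {S : Set (Mat K)}
    (h : ∀ Q ∈ S, 0 < pf (arr M Q)) (hP : pf (arr M P) ≤ 0) :
    ∃ γ : Fin 3 → Mat K, (∀ i, (γ i)ᴴ = γ i) ∧ (∀ i, rt (γ i) P = 0) ∧
      ∀ Q ∈ S, ∃ i, rt (γ i) Q ≠ 0 := by
  have hS : ∀ Q ∈ S, ‖bv (arr M Q)‖ < ‖av (arr M Q)‖ := by
    intro Q hQ
    have h1 := h Q hQ
    rw [pf_eq] at h1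
    exact lt_of_pow_lt_pow_left₀ 2 (norm_nonneg _) (by linarith)
  have hP' : ‖av (arr M P)‖ ≤ ‖bv (arr M P)‖ := by
    rw [pf_eq] at hP
    exact le_of_sq_le_sq (by linarith) (norm_nonneg _)
  by_cases hb : bv (arr M P) = 0
  · refine ⟨Tri_al M, Tri_al_herm hM, ?_, ?_⟩
    · intro i
      rw [hb, norm_zero] at hP'
      have h1 : av (arr M P) = 0 := norm_le_zero_iff.1 hP'
      rw [Tri_av, h1]
      rfl
    · intro Q hQ
      have h1 : av (arr M Q) ≠ 0 := by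
        intro h2
        have h3 := hS Q hQ
        rw [h2, norm_zero] at h3
        exact absurd h3 (not_lt.2 (norm_nonneg _))
      obtain ⟨i, hi⟩ := Tri_coord h1
      exact ⟨i, by rw [Tri_av]; exact hi⟩
  set b : E3 := bv (arr M P) with hbdef
  have hbpos : 0 < ‖b‖ := norm_pos_iff.2 hb
  have hbsq : ‖b‖ ^ 2 = b 0 * b 0 + b 1 * b 1 + b 2 * b 2 := by
    rw [EuclideanSpace.norm_sq_eq, Fin.sum_univ_three]
    simp only [Real.norm_eq_abs, sq_abs]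
    ring
  set γ : Fin 3 → Mat K := fun i => Tri_al M i +
    (((-(av (arr M P) i / ‖b‖ ^ 2) : ℝ)) : ℂ) • (((b 0 : ℝ) : ℂ) • Tri_be M 0 +
      ((b 1 : ℝ) : ℂ) • Tri_be M 1 + ((b 2 : ℝ) : ℂ) • Tri_be M 2) with hγ
  have hrt : ∀ i Q, rt (γ i) Q = av (arr M Q) i - (av (arr M P) i / ‖b‖ ^ 2) *
      (b 0 * bv (arr M Q) 0 + b 1 * bv (arr M Q) 1 + b 2 * bv (arr M Q) 2) := by
    intro i Q
    simp only [hγ, rt_add_left, rt_smul_left, Tri_av, Tri_bv]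
    ring
  refine ⟨γ, ?_, ?_, ?_⟩
  · intro i
    exact Tri_herm_add (Tri_al_herm hM i) (Tri_herm_smul (Tri_herm_add (Tri_herm_add
      (Tri_herm_smul (Tri_be_herm hM 0) _) (Tri_herm_smul (Tri_be_herm hM 1) _))
      (Tri_herm_smul (Tri_be_herm hM 2) _)) _)
  · intro i
    rw [hrt, ← hbdef, ← hbsq, div_mul_cancel₀ _ (by positivity), sub_self]
  · intro Q hQ
    by_contra hcon
    push Not at hcon
    have hin : b 0 * bv (arr M Q) 0 + b 1 * bv (arr M Q) 1 + b 2 * bv (arr M Q) 2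
        = inner ℝ b (bv (arr M Q)) := by
      rw [PiLp.inner_apply, Fin.sum_univ_three]
      simp only [RCLike.inner_apply, conj_trivial]
      ring
    have h1 : av (arr M Q) = (inner ℝ b (bv (arr M Q)) / ‖b‖ ^ 2) • av (arr M P) := by
      ext i
      have h2 := hcon i
      rw [hrt, hin, sub_eq_zero] at h2
      rw [h2, PiLp.smul_apply, smul_eq_mul]
      ring
    have h3 := hS Q hQ
    have h4 : |inner ℝ b (bv (arr M Q))| ≤ ‖b‖ * ‖bv (arr M Q)‖ := abs_real_inner_le_norm _ _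
    have h5 : ‖av (arr M Q)‖ = |inner ℝ b (bv (arr M Q))| / ‖b‖ ^ 2 * ‖av (arr M P)‖ := by
      rw [h1, norm_smul, Real.norm_eq_abs, abs_div, abs_of_pos (by positivity : 0 < ‖b‖ ^ 2)]
    have h6 : |inner ℝ b (bv (arr M Q))| / ‖b‖ ^ 2 * ‖av (arr M P)‖
        ≤ ‖b‖ * ‖bv (arr M Q)‖ / ‖b‖ ^ 2 * ‖b‖ := by
      apply mul_le_mul _ hP' (norm_nonneg _) (by positivity)
      exact div_le_div_of_nonneg_right h4 (by positivity)
    have h7 : ‖b‖ * ‖bv (arr M Q)‖ / ‖b‖ ^ 2 * ‖b‖ = ‖bv (arr M Q)‖ := by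
      field_simp
    linarith

end CF42
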